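import Pool.Agent.Helper18.VS.Fin1
import Pool.Agent.Helper61.GL.Cal

/-!
# Digits in a two-scale frame over a label (vector W): the finite inequality
-/

set_option autoImplicit false

namespace Pool.Agent.Helper18.VS

open Filter Topology Pool.Agent.Helper69.RK Pool.Agent.Helper31.EC QS Sp Pool.Agent.Helper38.NS
open Pool.Agent.Helper61.GL

noncomputable section

section part

variable {Ω α δ ι : Type} [Fintype Ω] [Fintype ι] [DecidableEq ι]

omit [DecidableEq ι] in
/-- partition by a function of the condition -/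
theorem ch_part (μ : Ω → ℝ) (f : Ω → α) (Y : Ω → δ) (g : Ω → ι)
    (hg : ∀ ω ω', μ ω ≠ 0 → μ ω' ≠ 0 → Y ω = Y ω' → g ω = g ω') :
    CH μ f Y = ∑ i, CH (res μ (fun ω => g ω = i)) f Y := by
  classical
  unfold CH
  rw [Finset.sum_comm]
  apply Finset.sum_congr rfl
  intro ω _
  by_cases hω : μ ω = 0
  · rw [hω, zero_mul]
    symm
    apply Finset.sum_eq_zero
    intro i _
    have : res μ (fun ω => g ω = i) ω = 0 := by
      unfold res
      rw [hω]
      exact ite_self 0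
    rw [this, zero_mul]
  have key : ∀ {β : Type} (h : Ω → β), (∀ ω ω', h ω = h ω' → Y ω = Y ω') →
      Pool.Agent.Helper69.RK.pr (res μ (fun ω' => g ω' = g ω)) h ω = Pool.Agent.Helper69.RK.pr μ h ω := by
    intro β h hh
    unfold Pool.Agent.Helper69.RK.pr
    apply Finset.sum_congr rfl
    intro ω' _
    by_cases h1 : h ω' = h ω
    · rw [if_pos h1, if_pos h1]
      by_cases h2 : μ ω' = 0
      · unfold res
        rw [h2]
        exact ite_self 0
      · unfold res
        rw [if_pos (hg ω' ω h2 hω (hh _ _ h1))]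
    · rw [if_neg h1, if_neg h1]
  rw [Finset.sum_eq_single (g ω)]
  · have e0 : res μ (fun ω' => g ω' = g ω) ω = μ ω := by
      unfold res
      rw [if_pos rfl]
    rw [e0, key Y (fun _ _ h => h), key (fun ω' => (f ω', Y ω')) (fun _ _ h => (Prod.mk.inj h).2)]
  · intro i _ hi
    have : res μ (fun ω => g ω = i) ω = 0 := by
      unfold res
      rw [if_neg (fun h => hi h.symm)]
    rw [this, zero_mul]
  · intro h
    exact absurd (Finset.mem_univ _) h

omit [Fintype Ω] in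
theorem res_res' (μ : Ω → ℝ) (E E' : Ω → Prop) : res (res μ E) E' = res μ (fun ω => E ω ∧ E' ω) := by
  funext ω
  unfold res
  by_cases h : E ω
  · by_cases h' : E' ω
    · rw [if_pos h', if_pos h, if_pos ⟨h, h'⟩]
    · rw [if_neg h', if_neg (fun x => h' x.2)]
  · by_cases h' : E' ω
    · rw [if_pos h', if_neg h, if_neg (fun x => h x.1)]
    · rw [if_neg h', if_neg (fun x => h x.1)]

omit [Fintype Ω] in
theorem res_ne_zero {μ : Ω → ℝ} {E : Ω → Prop} {ω : Ω} (h : res μ E ω ≠ 0) : μ ω ≠ 0 ∧ E ω := by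
  unfold res at h
  split_ifs at h with h1
  · exact ⟨h, h1⟩
  · exact absurd rfl h

end part

section fin2

variable {T : Sp} {b : ℕ} {z : Fin b → QS T} (zf : Fin b → TR T) {γ : ℕ → Type}
  (Y : ∀ k, (T.F k).Ω → γ k) (Jf : ∀ k, γ k → Finset (Fin b)) (cf : ∀ k, γ k → Fin b → Fin b → ℝ)
  (af : ∀ k, γ k → ℝ)

/-- digits of `z` in the frame of the label -/
def DY (s e : ℝ) : ∀ k, (T.F k).Ω → Fin b → ℤ := fun k ω =>
  dgt (Jf k (Y k ω)) (cf k (Y k ω)) (af k (Y k ω) + s * (T.F k).n) (af k (Y k ω) + e * (T.F k).n)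
    (fun i => TR.ev (zf i) k ω)

/-- the truncated matrix as tame functions -/
def cT (K : ℕ → ℝ) (hK : T.Sub K) (i j : Fin b) : TR T :=
  ⟨fun k ω => if |cf k (Y k ω) i j| ≤ K k then cf k (Y k ω) i j else 0, K, hK, by
    filter_upwards [hK.1] with k h0 ω _
    split_ifs with h
    · exact h
    · rw [abs_zero]
      exact h0⟩

theorem ev_cT (K : ℕ → ℝ) (hK : T.Sub K) (i j : Fin b) (k : ℕ) (ω : (T.F k).Ω) :
    TR.ev (cT Y cf K hK i j) k ω = if |cf k (Y k ω) i j| ≤ K k then cf k (Y k ω) i j else 0 := rfl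

variable {zf Y Jf cf af}

/-- the digits take few values -/
theorem DY_triv (K : ℕ → ℝ) (hK : T.Sub K) (hbz : ∀ᶠ k in UF, ∀ ω, (T.F k).μ ω ≠ 0 → ∀ i, |TR.ev (zf i) k ω| ≤ K k)
    {E : ∀ k, (T.F k).Ω → Prop} {s e : ℝ} (hs : s ≤ e)
    (hcf : ∀ᶠ k in UF, ∀ ω, (T.F k).μ ω ≠ 0 → E k ω → ∀ i j, |cf k (Y k ω) i j| ≤ K k)
    (ha : ∀ᶠ k in UF, ∀ ω, (T.F k).μ ω ≠ 0 → E k ω → af k (Y k ω) + e * (T.F k).n ≤ (T.F k).n) :
    ∀ᶠ k in UF, ∀ (W : Type) (g : (T.F k).Ω → W) (E' : (T.F k).Ω → Prop), (∀ ω, E' ω → E k ω) →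
      CH (res (T.F k).μ E') (DY (T := T) zf Y Jf cf af s e k) g ≤ b * 3 * (T.F k).n * mass (res (T.F k).μ E') := by
  have hL : T.Sub (fun k => K k + b * (K k * K k)) :=
    hK.add ((T.Sub_const (Nat.cast_nonneg b)).mul (hK.mul hK))
  filter_upwards [hbz, hcf, ha, hL.eventually_le one_pos, n_ge_one T, hL.1] with k h1 h2 h3 h4 h5 h6 W g E' hE'
  have hn : 0 < (T.F k).n := (T.F k).pos
  rw [one_mul] at h4
  set L := K k + b * (K k * K k) with hLd
  set P := (2 : ℝ) ^ ((T.F k).n) with hP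
  have h7 : (2 : ℝ) ≤ P := by
    rw [hP]
    calc (2 : ℝ) = 2 ^ (1 : ℝ) := (Real.rpow_one 2).symm
      _ ≤ 2 ^ ((T.F k).n) := Real.rpow_le_rpow_of_exponent_le one_le_two h5
  have b1 : ∀ ω, res (T.F k).μ E' ω ≠ 0 → ∀ i, |(DY (T := T) zf Y Jf cf af s e k ω i : ℝ)| ≤ P * L + 1 := by
    intro ω hω i
    obtain ⟨p1, p2⟩ := res_ne_zero hω
    have p3 := hE' ω p2
    have h8 := h3 ω p1 p3
    have h9 : s * (T.F k).n ≤ e * (T.F k).n := mul_le_mul_of_nonneg_right hs hn.le
    apply abs_dgt_le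
    · apply Real.rpow_le_rpow_of_exponent_le one_le_two
      linarith
    · exact Real.rpow_le_rpow_of_exponent_le one_le_two h8
    · exact h2 ω p1 p3
    · exact h1 ω p1
  have hPL : 0 ≤ P * L := mul_nonneg (by linarith) h6
  have h10 := st_E3.2 (T.F k).Ω W b (res (T.F k).μ E') (DY (T := T) zf Y Jf cf af s e k) g (2 * (P * L + 1))
    (fun ω => (T.F k).res_nonneg E' ω) (by linarith) (by
      intro ω ω' p q _ i
      have u1 := abs_le.mp (b1 ω p i)
      have u2 := abs_le.mp (b1 ω' q i)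
      rw [abs_le]
      constructor <;> linarith [u1.1, u1.2, u2.1, u2.2])
  refine h10.trans ?_
  apply mul_le_mul_of_nonneg_right _ ((T.F k).pb_nonneg E')
  rw [mul_assoc]
  apply mul_le_mul_of_nonneg_left _ (Nat.cast_nonneg b)
  have h11 : 2 * (P * L + 1) + 1 ≤ P * P * P := by
    have h12 : L ≤ P - 2 := by linarith
    have h13 : P * L ≤ P * (P - 2) := mul_le_mul_of_nonneg_left h12 (by linarith)
    nlinarith [mul_nonneg (by linarith : (0 : ℝ) ≤ P - 2) (mul_nonneg (by linarith : (0 : ℝ) ≤ P) (by linarith : (0 : ℝ) ≤ P))]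
  calc Real.logb 2 (2 * (P * L + 1) + 1) ≤ Real.logb 2 (P * P * P) :=
        Real.logb_le_logb_of_le one_lt_two (by linarith) h11
    _ = Real.logb 2 ((2 : ℝ) ^ (3 * (T.F k).n)) := by
        congr 1
        rw [hP, ← Real.rpow_add zero_lt_two, ← Real.rpow_add zero_lt_two]
        congr 1
        ring
    _ = 3 * (T.F k).n := Real.logb_rpow zero_lt_two (by norm_num)

/-- **ONE CELL OF THE LABEL**, finite form -/
theorem fin_cell {ρ : ℝ} (hρ : 0 ≤ ρ) (hz : ∀ i, QS.mk (zf i) = z i) (hY : Bdd Y) (hu : UQi T z (io Y) ρ)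
    (hYZ : ∀ᶠ k in UF, ∀ ω ω', (T.F k).μ ω ≠ 0 → (T.F k).μ ω' ≠ 0 → Y k ω = Y k ω' → (T.F k).Z ω ω')
    (K : ℕ → ℝ) (hK : T.Sub K) (J : Finset (Fin b)) (E : ∀ k, (T.F k).Ω → Prop) {α η s e : ℝ} (α0 : 0 ≤ α)
    (η0 : 0 ≤ η) (s0 : 0 ≤ s) (se : s ≤ e) (h1 : α + η + e ≤ 1)
    (hcf : ∀ᶠ k in UF, ∀ ω, (T.F k).μ ω ≠ 0 → E k ω → ∀ i j, |cf k (Y k ω) i j| ≤ K k)
    (hJne : ∀ᶠ k in UF, ∀ ω, (T.F k).μ ω ≠ 0 → E k ω → (Jf k (Y k ω)).Nonempty)
    (hJ : ∀ᶠ k in UF, ∀ ω, (T.F k).μ ω ≠ 0 → E k ω → Jf k (Y k ω) = J)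
    (ha : ∀ᶠ k in UF, ∀ ω, (T.F k).μ ω ≠ 0 → E k ω →
      α * (T.F k).n ≤ af k (Y k ω) ∧ af k (Y k ω) ≤ (α + η) * (T.F k).n)
    {η' : ℝ} (hη' : 0 < η') :
    ∀ᶠ k in UF, CH (res (T.F k).μ (E k)) (DY (T := T) zf Y Jf cf af s e k)
      (fun ω => (DY (T := T) zf Y Jf cf af 0 e k ω, Y k ω)) ≤
      ∑ ω, res (T.F k).μ (E k) ω * (((J.card - ρ) * s + b * η) * (T.F k).n) + η' * (T.F k).n := by
  have hsum : ∀ k, ∑ ω, res (T.F k).μ (E k) ω * (((J.card - ρ) * s + b * η) * (T.F k).n) =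
      T.pr E k * (((J.card - ρ) * s + b * η) * (T.F k).n) := by
    intro k
    rw [← Finset.sum_mul]
    rfl
  have ha' : ∀ᶠ k in UF, ∀ ω, (T.F k).μ ω ≠ 0 → E k ω → af k (Y k ω) + e * (T.F k).n ≤ (T.F k).n := by
    filter_upwards [ha] with k hk ω p1 p2
    have hn := (T.F k).pos
    have h3 := (hk ω p1 p2).2
    have h4 := mul_le_mul_of_nonneg_right h1 hn.le
    linarith
  obtain ⟨Kz, hKz, hbz⟩ := (TR.vec zf).bd
  have hbz' : ∀ᶠ k in UF, ∀ ω, (T.F k).μ ω ≠ 0 → ∀ i, |TR.ev (zf i) k ω| ≤ Kz k := hbz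
  by_cases hE : 0 < ul (T.pr E)
  · -- positive probability
    have hpr := eventually_gt_of_lt_ul (UB_pr E) hE
    have hJ0 : J.Nonempty := by
      have h2 : ∀ᶠ k in UF, J.Nonempty := by
        filter_upwards [hpr, hJ, hJne] with k q0 q1 q2
        by_contra hcon
        have h3 : T.pr E k = 0 := by
          show mass (res (T.F k).μ (E k)) = 0
          apply Finset.sum_eq_zero
          intro ω _
          by_contra h4
          obtain ⟨p1, p2⟩ := res_ne_zero h4
          have h5 := q2 ω p1 p2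
          rw [q1 ω p1 p2] at h5
          exact hcon h5
        linarith
      exact h2.exists.choose_spec
    have key := fin1 (T := T) (zf := zf) (Y := Y) (J := J) (c := cT Y cf K hK) (a := fun k ω => af k (Y k ω))
      hz hY hu hJ0 (Eventually.of_forall fun k ω ω' _ _ h i j => by rw [ev_cT, ev_cT, h]) hE α0 η0 s0 se h1 ha
      (Eventually.of_forall fun k ω ω' _ _ _ _ h => by rw [h])
    have B1 : Bdd (S := T.rest E) (Dg (T := T) zf J (cT Y cf K hK) (fun k ω => af k (Y k ω)) s e) := Dg_bdd hE se ha'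
    have B0 : Bdd (S := T.rest E) (Dg (T := T) zf J (cT Y cf K hK) (fun k ω => af k (Y k ω)) 0 e) :=
      Dg_bdd hE (s0.trans se) ha'
    have BY : Bdd (S := T.rest E) Y := rest_VB E hY
    have BP : Bdd (S := T.rest E) (fun k ω => (Dg (T := T) zf J (cT Y cf K hK) (fun k ω => af k (Y k ω)) 0 e k ω, Y k ω)) :=
      B0.pair BY
    rw [h_io B1 BP] at key
    have hb0 : (0 : ℝ) ≤ b := Nat.cast_nonneg b
    have hc0 : (0 : ℝ) ≤ J.card := Nat.cast_nonneg _
    have k2 : (J.card - ρ) * (s + η) + (b - J.card) * η ≤ (J.card - ρ) * s + b * η := by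
      have : ρ * η ≥ 0 := mul_nonneg hρ η0
      nlinarith
    have k3 := lt_of_le_of_lt (key.trans k2) (lt_add_of_pos_right _ hη')
    have UBr := UB_rt (S := T.rest E) B1.toInf (fun k => Setoid.ker (fun ω : (T.F k).Ω =>
      (Dg (T := T) zf J (cT Y cf K hK) (fun k ω => af k (Y k ω)) 0 e k ω, Y k ω)))
    have k4 := eventually_lt_of_ul_lt UBr k3
    filter_upwards [k4, hpr, hcf, hJ, hYZ] with k q0 q1 q2 q3 q4
    have hn : 0 < (T.F k).n := (T.F k).pos
    have q1' : (T.F k).pb (E k) ≠ 0 := ne_of_gt q1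
    -- the digits agree on the event
    have ag : ∀ t, ∀ ω, (T.F k).μ ω ≠ 0 → E k ω → DY (T := T) zf Y Jf cf af t e k ω =
        Dg (T := T) zf J (cT Y cf K hK) (fun k ω => af k (Y k ω)) t e k ω := by
      intro t ω p1 p2
      unfold DY Dg
      rw [q3 ω p1 p2]
      have : cf k (Y k ω) = fun i j => TR.ev (cT Y cf K hK i j) k ω := by
        funext i j
        rw [ev_cT, if_pos (q2 ω p1 p2 i j)]
      rw [this]
    have r0 := (T.F k).CH_res (E k) (DY (T := T) zf Y Jf cf af s e k)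
      (fun ω => (DY (T := T) zf Y Jf cf af 0 e k ω, Y k ω))
    have r1 : CH ((T.F k).rest (E k)).μ (DY (T := T) zf Y Jf cf af s e k)
        (fun ω => (DY (T := T) zf Y Jf cf af 0 e k ω, Y k ω)) =
        ((T.rest E).rt B1.toInf.1 (fun k => Setoid.ker (fun ω : (T.F k).Ω =>
          (Dg (T := T) zf J (cT Y cf K hK) (fun k ω => af k (Y k ω)) 0 e k ω, Y k ω))) k) * (T.F k).n := by
      unfold rt
      show _ = ((T.F k).rest (E k)).e (Setoid.ker (Dg (T := T) zf J (cT Y cf K hK) (fun k ω => af k (Y k ω)) s e k))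
        (Setoid.ker (fun ω : (T.F k).Ω =>
          (Dg (T := T) zf J (cT Y cf K hK) (fun k ω => af k (Y k ω)) 0 e k ω, Y k ω)) ⊓ (T.F k).Z) / (T.F k).n * (T.F k).n
      rw [div_mul_cancel₀ _ hn.ne']
      symm
      apply ((T.F k).rest (E k)).e_congr
      · intro (ω : (T.F k).Ω) (ω' : (T.F k).Ω) p p'
        obtain ⟨a1, a2⟩ := (T.F k).rest_supp (E k) ω p
        obtain ⟨a1', a2'⟩ := (T.F k).rest_supp (E k) ω' p'
        rw [ag s ω a1 (a2 q1'), ag s ω' a1' (a2' q1')]
        exact Iff.rfl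
      · intro (ω : (T.F k).Ω) (ω' : (T.F k).Ω) p p'
        obtain ⟨a1, a2⟩ := (T.F k).rest_supp (E k) ω p
        obtain ⟨a1', a2'⟩ := (T.F k).rest_supp (E k) ω' p'
        rw [ag 0 ω a1 (a2 q1'), ag 0 ω' a1' (a2' q1')]
        constructor
        · intro h
          exact h.1
        · intro h
          refine ⟨h, ?_⟩
          rw [Prod.mk.injEq] at h
          exact q4 ω' ω a1' a1 h.2
    have r2 := r0.trans (congrArg (fun x => (T.F k).pb (E k) * x) r1)
    rw [hsum, r2]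
    show T.pr E k * _ ≤ _
    have p0 : 0 ≤ T.pr E k := pr_nonneg E k
    have p1 : T.pr E k ≤ 1 := pr_le_one E k
    have m1 := mul_le_mul_of_nonneg_right q0.le hn.le
    have m2 := mul_le_mul_of_nonneg_left m1 p0
    have m3 : T.pr E k * (η' * (T.F k).n) ≤ 1 * (η' * (T.F k).n) :=
      mul_le_mul_of_nonneg_right p1 (mul_nonneg hη'.le hn.le)
    linarith
  · -- null event
    have h0 : ul (T.pr E) = 0 := le_antisymm (not_lt.mp hE) (const_le_ul (UB_pr E)
      (Eventually.of_forall fun k => pr_nonneg E k))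
    have hK2 : T.Sub (fun k => K k + Kz k) := hK.add hKz
    have tr := DY_triv (T := T) (zf := zf) (Y := Y) (Jf := Jf) (cf := cf) (af := af) (fun k => K k + Kz k) hK2
      (by filter_upwards [hbz', hK.1] with k q0 q1 ω hω i using (q0 ω hω i).trans (by linarith))
      (E := E) (s := s) (e := e) se
      (by filter_upwards [hcf, hKz.1] with k q0 q1 ω hω hE i j using (q0 ω hω hE i j).trans (by linarith)) ha'
    have hC : 0 < b * 3 + |(J.card - ρ) * s + b * η| + 1 := by positivity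
    have h2 : ul (T.pr E) < η' / (b * 3 + |(J.card - ρ) * s + b * η| + 1) := by
      rw [h0]
      positivity
    filter_upwards [tr, eventually_lt_of_ul_lt (UB_pr E) h2] with k q0 q1
    have hn : 0 < (T.F k).n := (T.F k).pos
    have q2 := q0 _ (fun ω => (DY (T := T) zf Y Jf cf af 0 e k ω, Y k ω)) (E k) (fun _ h => h)
    rw [hsum]
    refine q2.trans ?_
    rw [lt_div_iff₀ hC] at q1
    have p0 : 0 ≤ T.pr E k := pr_nonneg E k
    have a1 : -|(J.card - ρ) * s + b * η| ≤ (J.card - ρ) * s + b * η := neg_abs_le _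
    have a2 : T.pr E k * (-|(J.card - ρ) * s + b * η|) ≤ T.pr E k * ((J.card - ρ) * s + b * η) :=
      mul_le_mul_of_nonneg_left a1 p0
    have a3 : b * 3 * T.pr E k ≤ T.pr E k * ((J.card - ρ) * s + b * η) + η' := by nlinarith
    have a4 := mul_le_mul_of_nonneg_right a3 hn.le
    show b * 3 * (T.F k).n * T.pr E k ≤ _
    linarith

/-- **THE FINITE INEQUALITY**: the number of digits between the two frames of the label -/
theorem fin2 {ρ : ℝ} (hρ : 0 ≤ ρ) (hz : ∀ i, QS.mk (zf i) = z i) (hY : Bdd Y) (hu : UQi T z (io Y) ρ)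
    (hYZ : ∀ᶠ k in UF, ∀ ω ω', (T.F k).μ ω ≠ 0 → (T.F k).μ ω' ≠ 0 → Y k ω = Y k ω' → (T.F k).Z ω ω')
    (K : ℕ → ℝ) (hK : T.Sub K) (E : ∀ k, (T.F k).Ω → Prop) {δ s e : ℝ} (s0 : 0 ≤ s) (se : s ≤ e) (hδ : 0 < δ)
    (hcf : ∀ᶠ k in UF, ∀ ω, (T.F k).μ ω ≠ 0 → E k ω → ∀ i j, |cf k (Y k ω) i j| ≤ K k)
    (hJne : ∀ᶠ k in UF, ∀ ω, (T.F k).μ ω ≠ 0 → E k ω → (Jf k (Y k ω)).Nonempty)
    (ha : ∀ᶠ k in UF, ∀ ω, (T.F k).μ ω ≠ 0 → E k ω →
      0 ≤ af k (Y k ω) ∧ af k (Y k ω) + (e + δ) * (T.F k).n ≤ (T.F k).n)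
    {η' : ℝ} (hη' : 0 < η') :
    ∀ᶠ k in UF, CH (res (T.F k).μ (E k)) (DY (T := T) zf Y Jf cf af s e k) (Y k) ≤
      CH (res (T.F k).μ (E k)) (DY (T := T) zf Y Jf cf af 0 e k) (Y k) +
      ∑ ω, res (T.F k).μ (E k) ω * ((((Jf k (Y k ω)).card - ρ) * s) * (T.F k).n) + η' * (T.F k).n := by
  classical
  have e0 : 0 ≤ e := s0.trans se
  -- the mesh
  obtain ⟨M, hM⟩ := exists_nat_gt (max (1 / δ) (2 * b / η'))
  have hM1 : 1 / δ < M := lt_of_le_of_lt (le_max_left _ _) hM
  have hM2 : 2 * b / η' < M := lt_of_le_of_lt (le_max_right _ _) hM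
  have hM0 : (0 : ℝ) < M := lt_trans (by positivity) hM1
  have hmesh : 1 / (M : ℝ) ≤ δ := by
    rw [div_le_iff₀ hM0]
    rw [div_lt_iff₀ hδ] at hM1
    linarith
  have hmesh2 : b * (1 / (M : ℝ)) ≤ η' / 2 := by
    rw [mul_one_div, div_le_iff₀ hM0]
    rw [div_lt_iff₀ hη'] at hM2
    linarith
  -- the cells of the label
  set cellE : Finset (Fin b) × Fin M → ∀ k, (T.F k).Ω → Prop := fun i k ω => E k ω ∧
    Jf k (Y k ω) = i.1 ∧ ⌊af k (Y k ω) / (T.F k).n * M⌋ = (i.2 : ℕ) with hcell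
  set N : ℝ := (Fintype.card (Finset (Fin b) × Fin M) : ℝ) with hN
  have hN0 : 0 ≤ N := Nat.cast_nonneg _
  -- one cell
  have one : ∀ i : Finset (Fin b) × Fin M, ∀ᶠ k in UF,
      CH (res (T.F k).μ (cellE i k)) (DY (T := T) zf Y Jf cf af s e k)
        (fun ω => (DY (T := T) zf Y Jf cf af 0 e k ω, Y k ω)) ≤
      ∑ ω, res (T.F k).μ (cellE i k) ω * (((i.1.card - ρ) * s + b * (1 / M)) * (T.F k).n) +
        (η' / (2 * (N + 1))) * (T.F k).n := by
    intro i
    by_cases hi : (i.2 : ℝ) / M + 1 / M + e ≤ 1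
    · apply fin_cell hρ hz hY hu hYZ K hK i.1 (cellE i) (by positivity) (by positivity) s0 se hi
      · filter_upwards [hcf] with k q ω p1 p2 using q ω p1 p2.1
      · filter_upwards [hJne] with k q ω p1 p2 using q ω p1 p2.1
      · exact Eventually.of_forall fun k ω _ p2 => p2.2.1
      · refine Eventually.of_forall fun k ω _ p2 => ?_
        have hn := (T.F k).pos
        have h2 := p2.2.2
        rw [Int.floor_eq_iff] at h2
        have h3 : ((((i.2 : ℕ) : ℤ) : ℝ)) = ((i.2 : ℕ) : ℝ) := by norm_cast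
        rw [h3] at h2
        constructor
        · have h4 := h2.1
          rw [← div_le_iff₀ hM0, le_div_iff₀ hn] at h4
          exact h4
        · have h4 := h2.2.le
          rw [← le_div_iff₀ hM0, div_le_iff₀ hn] at h4
          rw [← add_div]
          exact h4
      · positivity
    · -- empty cell
      filter_upwards [ha] with k q
      have hn := (T.F k).pos
      have hz0 : ∀ ω, res (T.F k).μ (cellE i k) ω = 0 := by
        intro ω
        by_contra h2
        obtain ⟨p1, p2⟩ := res_ne_zero h2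
        apply hi
        have h3 := (q ω p1 p2.1).2
        have h4 := p2.2.2
        rw [Int.floor_eq_iff] at h4
        have h5 : ((((i.2 : ℕ) : ℤ) : ℝ)) = ((i.2 : ℕ) : ℝ) := by norm_cast
        rw [h5] at h4
        have h6 := h4.1
        rw [← div_le_iff₀ hM0] at h6
        have h7 : af k (Y k ω) / (T.F k).n + (e + δ) ≤ 1 := by
          rw [div_add' _ _ _ hn.ne', div_le_one hn]
          exact h3
        linarith
      have hz1 : res (T.F k).μ (cellE i k) = fun _ => 0 := funext hz0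
      have hz2 : CH (res (T.F k).μ (cellE i k)) (DY (T := T) zf Y Jf cf af s e k)
          (fun ω => (DY (T := T) zf Y Jf cf af 0 e k ω, Y k ω)) = 0 := by
        rw [hz1]
        unfold CH
        simp
      rw [hz2]
      have hz3 : ∑ ω, res (T.F k).μ (cellE i k) ω * (((i.1.card - ρ) * s + b * (1 / M)) * (T.F k).n) = 0 := by
        apply Finset.sum_eq_zero
        intro ω _
        rw [hz0, zero_mul]
      rw [hz3]
      positivity
  have all : ∀ᶠ k in UF, ∀ i ∈ (Finset.univ : Finset (Finset (Fin b) × Fin M)),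
      CH (res (T.F k).μ (cellE i k)) (DY (T := T) zf Y Jf cf af s e k)
        (fun ω => (DY (T := T) zf Y Jf cf af 0 e k ω, Y k ω)) ≤
      ∑ ω, res (T.F k).μ (cellE i k) ω * (((i.1.card - ρ) * s + b * (1 / M)) * (T.F k).n) +
        (η' / (2 * (N + 1))) * (T.F k).n := by
    rw [Filter.eventually_all_finset]
    intro i _
    exact one i
  filter_upwards [all, ha] with k q0 q1
  have hn := (T.F k).pos
  -- the cell of a point
  have hMpos : 0 < M := by exact_mod_cast hM0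
  set G : γ k → Finset (Fin b) × Fin M := fun y =>
    (Jf k y, ⟨min (⌊af k y / (T.F k).n * M⌋).toNat (M - 1), by
      have := min_le_right (⌊af k y / (T.F k).n * M⌋).toNat (M - 1)
      omega⟩) with hG
  set g : (T.F k).Ω → Finset (Fin b) × Fin M := fun ω => G (Y k ω) with hg
  have hgc : ∀ ω, (T.F k).μ ω ≠ 0 → E k ω → ∀ i, (g ω = i ↔ cellE i k ω) := by
    intro ω p1 p2 i
    have h2 := q1 ω p1 p2
    have x0 : 0 ≤ af k (Y k ω) / (T.F k).n * M := mul_nonneg (div_nonneg h2.1 hn.le) hM0.le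
    have x1 : af k (Y k ω) / (T.F k).n < 1 := by
      rw [div_lt_one hn]
      have := mul_pos (by linarith : (0 : ℝ) < e + δ) hn
      linarith
    have x2 : af k (Y k ω) / (T.F k).n * M < M := by
      have := mul_lt_mul_of_pos_right x1 hM0
      rwa [one_mul] at this
    set f := ⌊af k (Y k ω) / (T.F k).n * M⌋ with hf
    have f0 : 0 ≤ f := Int.floor_nonneg.mpr x0
    have f1 : f < M := by
      rw [hf, Int.floor_lt]
      exact_mod_cast x2
    have f2 : min f.toNat (M - 1) = f.toNat := by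
      apply min_eq_left
      omega
    rw [hcell, hg, hG]
    beta_reduce
    constructor
    · intro h
      have h3 := congrArg Prod.fst h
      have h4 := congrArg (fun p : Finset (Fin b) × Fin M => (p.2 : ℕ)) h
      beta_reduce at h3 h4
      refine ⟨p2, h3, ?_⟩
      rw [← hf]
      have h5 : min f.toNat (M - 1) = (i.2 : ℕ) := h4
      rw [f2] at h5
      omega
    · rintro ⟨_, h3, h4⟩
      apply Prod.ext h3
      apply Fin.ext
      show min f.toNat (M - 1) = (i.2 : ℕ)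
      rw [f2]
      rw [← hf] at h4
      omega
  -- partition
  have c1 := ch_tri (res (T.F k).μ (E k)) ((T.F k).res_nonneg (E k)) (DY (T := T) zf Y Jf cf af s e k)
    (DY (T := T) zf Y Jf cf af 0 e k) (Y k)
  have c2 := ch_part (res (T.F k).μ (E k)) (DY (T := T) zf Y Jf cf af s e k)
    (fun ω => (DY (T := T) zf Y Jf cf af 0 e k ω, Y k ω)) g (by
      intro ω ω' _ _ h
      rw [Prod.mk.injEq] at h
      rw [hg]
      beta_reduce
      rw [h.2])
  have c3 : ∀ i, res (res (T.F k).μ (E k)) (fun ω => g ω = i) = res (T.F k).μ (cellE i k) := by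
    intro i
    rw [res_res']
    funext ω
    by_cases hω : (T.F k).μ ω = 0
    · unfold res
      rw [hω, ite_self, ite_self]
    by_cases hE : E k ω
    · have h2 := hgc ω hω hE i
      unfold res
      by_cases h3 : g ω = i
      · rw [if_pos ⟨hE, h3⟩, if_pos (h2.mp h3)]
      · rw [if_neg (fun x => h3 x.2), if_neg (fun x => h3 (h2.mpr x))]
    · unfold res
      rw [if_neg (fun x => hE x.1), if_neg (fun x => hE x.1)]
  rw [Finset.sum_congr rfl (fun i _ => by rw [c3 i])] at c2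
  have c4 : ∑ i, CH (res (T.F k).μ (cellE i k)) (DY (T := T) zf Y Jf cf af s e k)
        (fun ω => (DY (T := T) zf Y Jf cf af 0 e k ω, Y k ω)) ≤
      ∑ i : Finset (Fin b) × Fin M, (∑ ω, res (T.F k).μ (cellE i k) ω *
        (((i.1.card - ρ) * s + b * (1 / M)) * (T.F k).n) + (η' / (2 * (N + 1))) * (T.F k).n) :=
    Finset.sum_le_sum fun i hi => q0 i hi
  have c5 : ∑ i : Finset (Fin b) × Fin M, (∑ ω, res (T.F k).μ (cellE i k) ω *
        (((i.1.card - ρ) * s + b * (1 / M)) * (T.F k).n) + (η' / (2 * (N + 1))) * (T.F k).n) =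
      ∑ ω, res (T.F k).μ (E k) ω * ((((Jf k (Y k ω)).card - ρ) * s + b * (1 / M)) * (T.F k).n) +
      N * ((η' / (2 * (N + 1))) * (T.F k).n) := by
    rw [Finset.sum_add_distrib, Finset.sum_const, Finset.card_univ, nsmul_eq_mul, Finset.sum_comm]
    congr 1
    apply Finset.sum_congr rfl
    intro ω _
    have h2 : ∀ i, res (T.F k).μ (cellE i k) ω = if g ω = i then res (T.F k).μ (E k) ω else 0 := by
      intro i
      rw [← c3 i]
      unfold res
      by_cases h3 : g ω = i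
      · simp only [if_pos h3]
      · simp only [if_neg h3]
    rw [Finset.sum_eq_single (g ω)]
    · rw [h2, if_pos rfl]
    · intro i _ hi
      rw [h2, if_neg (fun h => hi h.symm), zero_mul]
    · intro h
      exact absurd (Finset.mem_univ _) h
  have c6 : ∑ ω, res (T.F k).μ (E k) ω * ((((Jf k (Y k ω)).card - ρ) * s + b * (1 / M)) * (T.F k).n) =
      ∑ ω, res (T.F k).μ (E k) ω * ((((Jf k (Y k ω)).card - ρ) * s) * (T.F k).n) +
      T.pr E k * (b * (1 / M) * (T.F k).n) := by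
    have : T.pr E k = ∑ ω, res (T.F k).μ (E k) ω := rfl
    rw [this, Finset.sum_mul, ← Finset.sum_add_distrib]
    apply Finset.sum_congr rfl
    intro ω _
    ring
  have c7 : T.pr E k * (b * (1 / M) * (T.F k).n) ≤ η' / 2 * (T.F k).n := by
    have p1 : T.pr E k ≤ 1 := pr_le_one E k
    have p2 : 0 ≤ b * (1 / (M : ℝ)) * (T.F k).n := by positivity
    calc T.pr E k * (b * (1 / M) * (T.F k).n) ≤ 1 * (b * (1 / M) * (T.F k).n) :=
          mul_le_mul_of_nonneg_right p1 p2
      _ ≤ η' / 2 * (T.F k).n := by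
          rw [one_mul]
          exact mul_le_mul_of_nonneg_right hmesh2 hn.le
  have c8 : N * ((η' / (2 * (N + 1))) * (T.F k).n) ≤ η' / 2 * (T.F k).n := by
    have : N * (η' / (2 * (N + 1))) ≤ η' / 2 := by
      rw [mul_div_assoc', div_le_div_iff₀ (by positivity) (by norm_num)]
      nlinarith
    rw [← mul_assoc]
    exact mul_le_mul_of_nonneg_right this hn.le
  rw [c5, c6] at c4
  rw [c2] at c1
  linarith

end fin2

end

end Pool.Agent.Helper18.VS
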