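import Pool.Agent.Helper61.GL.Cal

/-!
# Agreement lemma: a variable which is usually on a short list given by a nearly independent variable
has small entropy on an event (vector W)
-/

set_option autoImplicit false

namespace Pool.Agent.Helper18.VS

open Finset Pool.Agent.Helper69.RK Pool.Agent.Helper61.GL

variable {Ω α β φ γ : Type} [Fintype Ω]

/-- comparison of sums atom by atom -/
theorem sum_le_fib (κ : Ω → γ) (a b : Ω → ℝ) (h : ∀ ω0, pr a κ ω0 ≤ pr b κ ω0) :
    ∑ ω, a ω ≤ ∑ ω, b ω := by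
  classical
  have hm : ∀ ω ∈ (univ : Finset Ω), κ ω ∈ (univ : Finset Ω).image κ := fun ω _ =>
    mem_image_of_mem κ (mem_univ ω)
  rw [← Finset.sum_fiberwise_of_maps_to hm a, ← Finset.sum_fiberwise_of_maps_to hm b]
  apply sum_le_sum
  intro c hc
  obtain ⟨ω0, _, rfl⟩ := mem_image.mp hc
  have h1 := h ω0
  unfold pr at h1
  rw [Finset.sum_filter, Finset.sum_filter]
  have e : ∀ a : Ω → ℝ, (∑ ω, if κ ω = κ ω0 then a ω else 0) =
      ∑ ω, @ite ℝ (κ ω = κ ω0) (Classical.propDecidable _) (a ω) 0 := by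
    intro a
    apply Finset.sum_congr rfl
    intro ω _
    by_cases hh : κ ω = κ ω0
    · simp only [if_pos hh]
    · simp only [if_neg hh]
  rw [e a, e b]
  exact h1

theorem pr_mono' (a b : Ω → ℝ) (κ : Ω → γ) (ω0 : Ω) (h : ∀ ω, κ ω = κ ω0 → a ω ≤ b ω) :
    pr a κ ω0 ≤ pr b κ ω0 := by
  classical
  unfold pr
  apply sum_le_sum
  intro ω _
  split_ifs with h1
  · exact h ω h1
  · exact le_rfl

theorem pr_mul' (a : Ω → ℝ) (κ : Ω → γ) (ω0 : Ω) (c : ℝ) :
    pr (fun ω => a ω * c) κ ω0 = pr a κ ω0 * c := by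
  classical
  unfold pr
  rw [Finset.sum_mul]
  apply Finset.sum_congr rfl
  intro ω _
  split_ifs
  · rfl
  · rw [zero_mul]

theorem pr_add' (a b : Ω → ℝ) (κ : Ω → γ) (ω0 : Ω) :
    pr (fun ω => a ω + b ω) κ ω0 = pr a κ ω0 + pr b κ ω0 := by
  classical
  unfold pr
  rw [← Finset.sum_add_distrib]
  apply Finset.sum_congr rfl
  intro ω _
  split_ifs
  · rfl
  · rw [add_zero]

theorem pr_zero' (a : Ω → ℝ) (κ : Ω → γ) (ω0 : Ω) (h : ∀ ω, κ ω = κ ω0 → a ω = 0) : pr a κ ω0 = 0 := by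
  classical
  unfold pr
  apply Finset.sum_eq_zero
  intro ω _
  split_ifs with h1
  · exact h ω h1
  · rfl

theorem pr_congr' (μ : Ω → ℝ) (f : Ω → α) {ω ω' : Ω} (h : f ω = f ω') : pr μ f ω = pr μ f ω' := by
  unfold pr
  rw [h]

theorem pr_pos' (μ : Ω → ℝ) (hμ : ∀ ω, 0 ≤ μ ω) (f : Ω → α) {ω : Ω} (h : μ ω ≠ 0) : 0 < pr μ f ω := by
  classical
  unfold pr
  have h1 : 0 < μ ω := lt_of_le_of_ne (hμ ω) (Ne.symm h)
  apply Finset.sum_pos' (fun ω' _ => by split_ifs <;> [exact hμ ω'; exact le_rfl])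
  exact ⟨ω, mem_univ ω, by rw [if_pos rfl]; exact h1⟩

theorem pr_nonneg' (μ : Ω → ℝ) (hμ : ∀ ω, 0 ≤ μ ω) (f : Ω → α) (ω : Ω) : 0 ≤ pr μ f ω := by
  classical
  unfold pr
  exact Finset.sum_nonneg fun ω' _ => by split_ifs <;> [exact hμ ω'; exact le_rfl]

omit [Fintype Ω] in
theorem res_nn (μ : Ω → ℝ) (hμ : ∀ ω, 0 ≤ μ ω) (E : Ω → Prop) (ω : Ω) : 0 ≤ res μ E ω := by
  unfold res
  split_ifs
  · exact hμ ω
  · exact le_rfl

omit [Fintype Ω] in
theorem res_le (μ : Ω → ℝ) (hμ : ∀ ω, 0 ≤ μ ω) (E : Ω → Prop) (ω : Ω) : res μ E ω ≤ μ ω := by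
  unfold res
  split_ifs
  · exact le_rfl
  · exact hμ ω

omit [Fintype Ω] in
theorem res_split (μ : Ω → ℝ) (E : Ω → Prop) (ω : Ω) : μ ω = res μ E ω + res μ (fun ω => ¬ E ω) ω := by
  unfold res
  by_cases h : E ω
  · rw [if_pos h, if_neg (not_not.mpr h), add_zero]
  · rw [if_neg h, if_pos h, zero_add]

omit [Fintype Ω] in
theorem res_zero (μ : Ω → ℝ) (E : Ω → Prop) (ω : Ω) (h : ¬ E ω) : res μ E ω = 0 := by
  unfold res
  rw [if_neg h]

/-- the event `P(X on the list | F, X) ≥ 1/2` -/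
def Gev (μ : Ω → ℝ) (X : Ω → α) (Y : Ω → β) (F : Ω → φ) (Rl : φ → β → α → Prop) (ω : Ω) : Prop :=
  pr μ (fun ω' => (X ω', F ω')) ω ≤
    2 * pr (res μ (fun ω' => Rl (F ω') (Y ω') (X ω'))) (fun ω' => (X ω', F ω')) ω

theorem Gev_iff {μ : Ω → ℝ} {X : Ω → α} {Y : Ω → β} {F : Ω → φ} {Rl : φ → β → α → Prop} {ω ω' : Ω}
    (h : (X ω, F ω) = (X ω', F ω')) : Gev μ X Y F Rl ω ↔ Gev μ X Y F Rl ω' := by
  unfold Gev
  rw [pr_congr' μ (fun ω' => (X ω', F ω')) (ω := ω) (ω' := ω') h,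
    pr_congr' (res μ (fun ω' => Rl (F ω') (Y ω') (X ω'))) (fun ω' => (X ω', F ω')) (ω := ω) (ω' := ω') h]

/-- the event has large probability -/
theorem Gev_mass (μ : Ω → ℝ) (hμ : ∀ ω, 0 ≤ μ ω) (X : Ω → α) (Y : Ω → β) (F : Ω → φ)
    (Rl : φ → β → α → Prop) :
    mass (res μ (fun ω => ¬ Gev μ X Y F Rl ω)) ≤ 2 * mass (res μ (fun ω => ¬ Rl (F ω) (Y ω) (X ω))) := by
  unfold mass
  rw [Finset.mul_sum]
  apply sum_le_fib (fun ω => (X ω, F ω))
  intro ω0
  by_cases hG : Gev μ X Y F Rl ω0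
  · rw [pr_zero' (res μ fun ω => ¬ Gev μ X Y F Rl ω) _ ω0 (fun ω h =>
      res_zero _ _ _ (not_not.mpr ((Gev_iff h).mpr hG)))]
    exact pr_nonneg' _ (fun ω => mul_nonneg zero_le_two (res_nn μ hμ _ ω)) _ _
  · have hG' := hG
    unfold Gev at hG
    rw [not_le] at hG
    have h1 : pr (res μ fun ω => ¬ Gev μ X Y F Rl ω) (fun ω => (X ω, F ω)) ω0 ≤
        pr μ (fun ω => (X ω, F ω)) ω0 := pr_mono' _ _ _ _ (fun ω _ => res_le μ hμ _ ω)
    have h2 : pr μ (fun ω => (X ω, F ω)) ω0 =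
        pr (res μ (fun ω' => Rl (F ω') (Y ω') (X ω'))) (fun ω => (X ω, F ω)) ω0 +
        pr (res μ (fun ω' => ¬ Rl (F ω') (Y ω') (X ω'))) (fun ω => (X ω, F ω)) ω0 := by
      rw [← pr_add']
      congr 1
      funext ω
      exact res_split μ _ ω
    have h3 : pr (fun ω => 2 * res μ (fun ω' => ¬ Rl (F ω') (Y ω') (X ω')) ω) (fun ω => (X ω, F ω)) ω0 =
        pr (res μ (fun ω' => ¬ Rl (F ω') (Y ω') (X ω'))) (fun ω => (X ω, F ω)) ω0 * 2 := by
      rw [← pr_mul']
      congr 1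
      funext ω
      ring
    rw [h3]
    linarith

section weights

open Classical in
/-- mass of a fibre of `F` -/
noncomputable def mF (μ : Ω → ℝ) (F : Ω → φ) (f : φ) : ℝ := ∑ ω, if F ω = f then μ ω else 0

open Classical in
/-- mass of a fibre of `(Y, F)` -/
noncomputable def mY (μ : Ω → ℝ) (Y : Ω → β) (F : Ω → φ) (f : φ) (y : β) : ℝ :=
  ∑ ω, if Y ω = y ∧ F ω = f then μ ω else 0

open Classical in
/-- mass of the points of a fibre of `F` for which `x` is on the list -/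
noncomputable def mR (μ : Ω → ℝ) (Y : Ω → β) (F : Ω → φ) (Rl : φ → β → α → Prop) (f : φ) (x : α) : ℝ :=
  ∑ ω, if F ω = f ∧ Rl f (Y ω) x then μ ω else 0

variable (μ : Ω → ℝ) (hμ : ∀ ω, 0 ≤ μ ω) (X : Ω → α) (Y : Ω → β) (F : Ω → φ) (Rl : φ → β → α → Prop)

theorem mF_pr (ω : Ω) : pr μ F ω = mF μ F (F ω) := rfl

theorem mY_pr (ω : Ω) : pr μ (fun ω' => (Y ω', F ω')) ω = mY μ Y F (F ω) (Y ω) := by
  unfold pr mY
  apply Finset.sum_congr rfl
  intro ω' _
  by_cases h : Y ω' = Y ω ∧ F ω' = F ω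
  · rw [if_pos h, if_pos (Prod.ext h.1 h.2)]
  · rw [if_neg h, if_neg]
    intro h'
    rw [Prod.mk.injEq] at h'
    exact h h'

include hμ in
theorem mF_nonneg (f : φ) : 0 ≤ mF μ F f := by
  unfold mF
  exact Finset.sum_nonneg fun ω' _ => by split_ifs <;> [exact hμ ω'; exact le_rfl]

include hμ in
theorem mY_nonneg (f : φ) (y : β) : 0 ≤ mY μ Y F f y := by
  unfold mY
  exact Finset.sum_nonneg fun ω' _ => by split_ifs <;> [exact hμ ω'; exact le_rfl]

include hμ in
theorem mR_nonneg (f : φ) (x : α) : 0 ≤ mR μ Y F Rl f x := by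
  unfold mR
  exact Finset.sum_nonneg fun ω' _ => by split_ifs <;> [exact hμ ω'; exact le_rfl]

include hμ in
theorem mR_le (f : φ) (x : α) : mR μ Y F Rl f x ≤ mF μ F f := by
  classical
  unfold mR mF
  apply sum_le_sum
  intro ω _
  by_cases h : F ω = f
  · rw [if_pos h]
    split_ifs
    · exact le_rfl
    · exact hμ ω
  · rw [if_neg h, if_neg (fun h' => h h'.1)]

include hμ in
/-- the fibres of `Y` inside a fibre of `F` -/
theorem sum_mY (f : φ) (S : Finset β) : ∑ y ∈ S, mY μ Y F f y ≤ mF μ F f := by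
  classical
  unfold mY mF
  rw [Finset.sum_comm]
  apply sum_le_sum
  intro ω _
  by_cases h : F ω = f
  · rw [if_pos h]
    have h1 : ∀ y ∈ S, (if Y ω = y ∧ F ω = f then μ ω else 0) = if Y ω = y then μ ω else 0 := by
      intro y _
      simp only [h, and_true]
    rw [Finset.sum_congr rfl h1, Finset.sum_ite_eq]
    split_ifs
    · exact le_rfl
    · exact hμ ω
  · rw [if_neg h]
    apply le_of_eq
    apply Finset.sum_eq_zero
    intro y _
    rw [if_neg (fun h' => h h'.2)]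

open Classical in
include hμ in
theorem sum_mYR (f : φ) (x : α) (S : Finset β) :
    ∑ y ∈ S, (if Rl f y x then mY μ Y F f y else 0) ≤ mR μ Y F Rl f x := by
  unfold mY mR
  have h0 : ∀ y ∈ S, (if Rl f y x then ∑ ω, (if Y ω = y ∧ F ω = f then μ ω else 0) else 0) =
      ∑ ω, if Y ω = y ∧ F ω = f ∧ Rl f (Y ω) x then μ ω else 0 := by
    intro y _
    by_cases h : Rl f y x
    · rw [if_pos h]
      apply Finset.sum_congr rfl
      intro ω _
      by_cases h1 : Y ω = y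
      · rw [h1]
        simp only [h, and_true]
      · rw [if_neg (fun h' => h1 h'.1), if_neg (fun h' => h1 h'.1)]
    · rw [if_neg h]
      symm
      apply Finset.sum_eq_zero
      intro ω _
      rw [if_neg]
      rintro ⟨h1, _, h2⟩
      rw [h1] at h2
      exact h h2
  rw [Finset.sum_congr rfl h0, Finset.sum_comm]
  apply sum_le_sum
  intro ω _
  by_cases h : F ω = f ∧ Rl f (Y ω) x
  · rw [if_pos h]
    have h1 : ∀ y ∈ S, (if Y ω = y ∧ F ω = f ∧ Rl f (Y ω) x then μ ω else 0) =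
        if Y ω = y then μ ω else 0 := by
      intro y _
      simp only [h, and_true]
    rw [Finset.sum_congr rfl h1, Finset.sum_ite_eq]
    split_ifs
    · exact le_rfl
    · exact hμ ω
  · rw [if_neg h]
    apply le_of_eq
    apply Finset.sum_eq_zero
    intro y _
    rw [if_neg (fun h' => h h'.2)]

end weights

open Classical in
/-- the information about `Y` contained in `X` controls the cost of the lists -/
theorem list_info (μ : Ω → ℝ) (hμ : ∀ ω, 0 ≤ μ ω) (X : Ω → α) (Y : Ω → β) (F : Ω → φ)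
    (Rl : φ → β → α → Prop) :
    ∑ ω, res μ (fun ω => Rl (F ω) (Y ω) (X ω)) ω * Real.logb 2 (mF μ F (F ω) / mR μ Y F Rl (F ω) (X ω)) ≤
      CH μ Y F - CH μ Y (fun ω => (X ω, F ω)) + mass μ := by
  -- the test law
  have key := ch_gibbs μ hμ Y (fun ω => (X ω, F ω))
    (fun g y => mY μ Y F g.2 y / mF μ F g.2 * (1 + if Rl g.2 y g.1 then mF μ F g.2 / mR μ Y F Rl g.2 g.1 else 0) / 2)
    (by
      intro ω hω
      have h1 : 0 < mY μ Y F (F ω) (Y ω) := by
        rw [← mY_pr]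
        exact pr_pos' μ hμ _ hω
      have h2 : 0 < mF μ F (F ω) := by
        rw [← mF_pr]
        exact pr_pos' μ hμ _ hω
      have h3 : 0 ≤ (if Rl (F ω) (Y ω) (X ω) then mF μ F (F ω) / mR μ Y F Rl (F ω) (X ω) else 0) := by
        split_ifs
        · exact div_nonneg h2.le (mR_nonneg μ hμ Y F Rl _ _)
        · exact le_rfl
      show 0 < mY μ Y F (F ω) (Y ω) / mF μ F (F ω) * (1 + _) / 2
      have h4 : 0 < mY μ Y F (F ω) (Y ω) / mF μ F (F ω) := div_pos h1 h2
      have h5 : 0 < 1 + (if Rl (F ω) (Y ω) (X ω) then mF μ F (F ω) / mR μ Y F Rl (F ω) (X ω) else 0) := by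
        linarith
      exact div_pos (mul_pos h4 h5) zero_lt_two)
    (by
      intro g y
      have h3 : 0 ≤ (if Rl g.2 y g.1 then mF μ F g.2 / mR μ Y F Rl g.2 g.1 else 0) := by
        split_ifs
        · exact div_nonneg (mF_nonneg μ hμ F _) (mR_nonneg μ hμ Y F Rl _ _)
        · exact le_rfl
      exact div_nonneg (mul_nonneg (div_nonneg (mY_nonneg μ hμ Y F _ _) (mF_nonneg μ hμ F _))
        (by linarith)) zero_le_two)
    (by
      intro g S
      have e : ∀ y ∈ S, mY μ Y F g.2 y / mF μ F g.2 *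
          (1 + if Rl g.2 y g.1 then mF μ F g.2 / mR μ Y F Rl g.2 g.1 else 0) / 2 =
          mY μ Y F g.2 y / mF μ F g.2 / 2 +
          (if Rl g.2 y g.1 then mY μ Y F g.2 y else 0) * (1 / mF μ F g.2 * (mF μ F g.2 / mR μ Y F Rl g.2 g.1)) / 2 := by
        intro y _
        split_ifs <;> ring
      rw [Finset.sum_congr rfl e, Finset.sum_add_distrib, ← Finset.sum_div, ← Finset.sum_div, ← Finset.sum_div,
        ← Finset.sum_mul]
      have a1 := sum_mY μ hμ Y F g.2 S
      have a2 := sum_mYR μ hμ Y F Rl g.2 g.1 S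
      have b1 : (∑ y ∈ S, mY μ Y F g.2 y) / mF μ F g.2 ≤ 1 :=
        div_le_one_of_le₀ a1 (mF_nonneg μ hμ F _)
      have b2 : (∑ y ∈ S, (if Rl g.2 y g.1 then mY μ Y F g.2 y else 0)) *
          (1 / mF μ F g.2 * (mF μ F g.2 / mR μ Y F Rl g.2 g.1)) ≤ 1 := by
        rcases eq_or_lt_of_le (mF_nonneg μ hμ F g.2) with h0 | h0
        · rw [← h0]
          norm_num
        · rcases eq_or_lt_of_le (mR_nonneg μ hμ Y F Rl g.2 g.1) with h1 | h1
          · rw [← h1]
            norm_num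
          · have h2 : 1 / mF μ F g.2 * (mF μ F g.2 / mR μ Y F Rl g.2 g.1) = 1 / mR μ Y F Rl g.2 g.1 := by
              field_simp
            rw [h2, mul_one_div]
            exact div_le_one_of_le₀ a2 h1.le
      linarith)
  -- the value of the test law
  have h1 : CH μ Y F = ∑ ω, μ ω * (Real.logb 2 (mF μ F (F ω)) - Real.logb 2 (mY μ Y F (F ω) (Y ω))) := by
    unfold CH
    apply Finset.sum_congr rfl
    intro ω _
    rw [← mF_pr, ← mY_pr]
  have h2 : mass μ = ∑ ω, μ ω * 1 := by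
    unfold mass
    apply Finset.sum_congr rfl
    intro ω _
    rw [mul_one]
  have h3 : ∑ ω, res μ (fun ω => Rl (F ω) (Y ω) (X ω)) ω *
      Real.logb 2 (mF μ F (F ω) / mR μ Y F Rl (F ω) (X ω)) ≤
      (CH μ Y F + mass μ) + ∑ ω, μ ω * Real.logb 2 (mY μ Y F (F ω) (Y ω) / mF μ F (F ω) *
        (1 + if Rl (F ω) (Y ω) (X ω) then mF μ F (F ω) / mR μ Y F Rl (F ω) (X ω) else 0) / 2) := by
    rw [h1, h2, ← Finset.sum_add_distrib, ← Finset.sum_add_distrib]
    apply sum_le_sum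
    intro ω _
    by_cases hω : μ ω = 0
    · have : res μ (fun ω => Rl (F ω) (Y ω) (X ω)) ω = 0 := by
        unfold res
        rw [hω]
        exact ite_self 0
      rw [this, hω]
      linarith
    have p1 : 0 < mY μ Y F (F ω) (Y ω) := by
      rw [← mY_pr]
      exact pr_pos' μ hμ _ hω
    have p2 : 0 < mF μ F (F ω) := by
      rw [← mF_pr]
      exact pr_pos' μ hμ _ hω
    have p0 : 0 ≤ μ ω := hμ ω
    have p3 : 0 ≤ (if Rl (F ω) (Y ω) (X ω) then mF μ F (F ω) / mR μ Y F Rl (F ω) (X ω) else 0) := by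
      split_ifs
      · exact div_nonneg p2.le (mR_nonneg μ hμ Y F Rl _ _)
      · exact le_rfl
    have p4 : 0 < 1 + (if Rl (F ω) (Y ω) (X ω) then mF μ F (F ω) / mR μ Y F Rl (F ω) (X ω) else 0) := by
      linarith
    rw [Real.logb_div (mul_pos (div_pos p1 p2) p4).ne' two_ne_zero, Real.logb_mul (div_pos p1 p2).ne' p4.ne',
      Real.logb_div p1.ne' p2.ne', Real.logb_self_eq_one one_lt_two, ← mul_add, ← mul_add]
    have e : Real.logb 2 (mF μ F (F ω)) - Real.logb 2 (mY μ Y F (F ω) (Y ω)) + 1 +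
        (Real.logb 2 (mY μ Y F (F ω) (Y ω)) - Real.logb 2 (mF μ F (F ω)) +
          Real.logb 2 (1 + if Rl (F ω) (Y ω) (X ω) then mF μ F (F ω) / mR μ Y F Rl (F ω) (X ω) else 0) - 1) =
        Real.logb 2 (1 + if Rl (F ω) (Y ω) (X ω) then mF μ F (F ω) / mR μ Y F Rl (F ω) (X ω) else 0) := by
      ring
    rw [e]
    unfold res
    by_cases hR : Rl (F ω) (Y ω) (X ω)
    · rw [if_pos hR, if_pos hR]
      apply mul_le_mul_of_nonneg_left _ p0
      have p5 : 0 < mR μ Y F Rl (F ω) (X ω) := by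
        unfold mR
        apply Finset.sum_pos' (fun ω' _ => by split_ifs <;> [exact hμ ω'; exact le_rfl])
        exact ⟨ω, mem_univ ω, by rw [if_pos ⟨rfl, hR⟩]; exact lt_of_le_of_ne p0 (Ne.symm hω)⟩
      apply Real.logb_le_logb_of_le one_lt_two (div_pos p2 p5)
      linarith
    · rw [if_neg hR, if_neg hR, zero_mul, add_zero, Real.logb_one, mul_zero]
  linarith

open Classical in
/-- **AGREEMENT LEMMA** -/
theorem agl (μ : Ω → ℝ) (hμ : ∀ ω, 0 ≤ μ ω) (X : Ω → α) (Y : Ω → β) (F : Ω → φ) (Rl : φ → β → α → Prop)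
    (C : ℕ) (hC : ∀ f y (S : Finset α), (∀ x ∈ S, Rl f y x) → S.card ≤ C) :
    CH (res μ (Gev μ X Y F Rl)) X F ≤ Real.logb 2 C * mass (res μ (Gev μ X Y F Rl)) +
      2 * (CH μ Y F - CH μ Y (fun ω => (X ω, F ω)) + mass μ) := by
  have hL := list_info μ hμ X Y F Rl
  have hpos : ∀ ω, res μ (Gev μ X Y F Rl) ω ≠ 0 → μ ω ≠ 0 ∧ 0 < mR μ Y F Rl (F ω) (X ω) ∧ 0 < mF μ F (F ω) := by
    intro ω hω
    have h0 : μ ω ≠ 0 := by
      intro h
      apply hω
      unfold res
      rw [h]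
      exact ite_self 0
    have hG : Gev μ X Y F Rl ω := by
      by_contra h
      apply hω
      unfold res
      rw [if_neg h]
    have h1 : 0 < pr μ (fun ω' => (X ω', F ω')) ω := pr_pos' μ hμ _ h0
    have h2 : 0 < pr (res μ (fun ω' => Rl (F ω') (Y ω') (X ω'))) (fun ω' => (X ω', F ω')) ω := by
      unfold Gev at hG
      linarith
    have h3 : pr (res μ (fun ω' => Rl (F ω') (Y ω') (X ω'))) (fun ω' => (X ω', F ω')) ω ≤
        mR μ Y F Rl (F ω) (X ω) := by
      unfold pr mR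
      apply sum_le_sum
      intro ω' _
      by_cases h : (X ω', F ω') = (X ω, F ω)
      · rw [if_pos h]
        rw [Prod.mk.injEq] at h
        unfold res
        by_cases h' : Rl (F ω') (Y ω') (X ω')
        · rw [if_pos h', if_pos]
          exact ⟨h.2, by rw [← h.2, ← h.1]; exact h'⟩
        · rw [if_neg h']
          split_ifs
          · exact hμ ω'
          · exact le_rfl
      · rw [if_neg h]
        split_ifs
        · exact hμ ω'
        · exact le_rfl
    refine ⟨h0, h2.trans_le h3, ?_⟩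
    rw [← mF_pr]
    exact pr_pos' μ hμ _ h0
  have hC1 : ∀ ω, res μ (Gev μ X Y F Rl) ω ≠ 0 → (0 : ℝ) < C := by
    intro ω hω
    have h1 := (hpos ω hω).2.1
    have h2 : ∃ ω', F ω' = F ω ∧ Rl (F ω) (Y ω') (X ω) := by
      by_contra hcon
      push Not at hcon
      have : mR μ Y F Rl (F ω) (X ω) = 0 := by
        unfold mR
        apply Finset.sum_eq_zero
        intro ω' _
        rw [if_neg]
        rintro ⟨a, b⟩
        exact hcon ω' a b
      linarith
    obtain ⟨ω', _, h3⟩ := h2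
    have h4 := hC (F ω) (Y ω') {X ω} (by
      intro x hx
      rw [mem_singleton] at hx
      rw [hx]
      exact h3)
    rw [card_singleton] at h4
    exact_mod_cast h4
  -- Gibbs
  have g1 := ch_gibbs (res μ (Gev μ X Y F Rl)) (res_nn μ hμ _) X F
    (fun f x => mR μ Y F Rl f x / (C * mF μ F f))
    (by
      intro ω hω
      obtain ⟨_, a, b⟩ := hpos ω hω
      exact div_pos a (mul_pos (hC1 ω hω) b))
    (fun f x => div_nonneg (mR_nonneg μ hμ Y F Rl f x) (mul_nonneg (Nat.cast_nonneg C) (mF_nonneg μ hμ F f)))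
    (by
      intro f S
      rw [← Finset.sum_div]
      apply div_le_one_of_le₀ _ (mul_nonneg (Nat.cast_nonneg C) (mF_nonneg μ hμ F f))
      unfold mR mF
      rw [Finset.sum_comm, Finset.mul_sum]
      apply sum_le_sum
      intro ω _
      by_cases h : F ω = f
      · rw [if_pos h]
        have e : ∀ x ∈ S, (if F ω = f ∧ Rl f (Y ω) x then μ ω else 0) =
            (if Rl f (Y ω) x then 1 else 0) * μ ω := by
          intro x _
          simp only [h, true_and]
          split_ifs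
          · rw [one_mul]
          · rw [zero_mul]
        rw [Finset.sum_congr rfl e, ← Finset.sum_mul]
        apply mul_le_mul_of_nonneg_right _ (hμ ω)
        rw [Finset.sum_boole]
        exact_mod_cast hC f (Y ω) (S.filter (fun x => Rl f (Y ω) x)) (fun x hx => (mem_filter.mp hx).2)
      · rw [if_neg h, mul_zero]
        apply le_of_eq
        apply Finset.sum_eq_zero
        intro x _
        rw [if_neg (fun h' => h h'.1)])
  -- from the event `A ∩ G` to the event `G`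
  have g2 : ∑ ω, res μ (Gev μ X Y F Rl) ω * Real.logb 2 (mF μ F (F ω) / mR μ Y F Rl (F ω) (X ω)) ≤
      ∑ ω, 2 * (res μ (fun ω => Rl (F ω) (Y ω) (X ω)) ω *
        Real.logb 2 (mF μ F (F ω) / mR μ Y F Rl (F ω) (X ω))) := by
    apply sum_le_fib (fun ω => (X ω, F ω))
    intro ω0
    set c := Real.logb 2 (mF μ F (F ω0) / mR μ Y F Rl (F ω0) (X ω0)) with hc
    have hc0 : 0 ≤ c := by
      rw [hc]
      rcases eq_or_lt_of_le (mR_nonneg μ hμ Y F Rl (F ω0) (X ω0)) with h | h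
      · rw [← h, div_zero, Real.logb_zero]
      · apply Real.logb_nonneg one_lt_two
        rw [one_le_div h]
        exact mR_le μ hμ Y F Rl _ _
    have e1 : pr (fun ω => res μ (Gev μ X Y F Rl) ω *
        Real.logb 2 (mF μ F (F ω) / mR μ Y F Rl (F ω) (X ω))) (fun ω => (X ω, F ω)) ω0 ≤
        pr (res μ (Gev μ X Y F Rl)) (fun ω => (X ω, F ω)) ω0 * c := by
      rw [← pr_mul']
      apply pr_mono'
      intro ω h
      rw [Prod.mk.injEq] at h
      rw [hc, h.1, h.2]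
    have e2 : pr (res μ (fun ω => Rl (F ω) (Y ω) (X ω))) (fun ω => (X ω, F ω)) ω0 * (2 * c) ≤
        pr (fun ω => 2 * (res μ (fun ω => Rl (F ω) (Y ω) (X ω)) ω *
        Real.logb 2 (mF μ F (F ω) / mR μ Y F Rl (F ω) (X ω)))) (fun ω => (X ω, F ω)) ω0 := by
      rw [← pr_mul']
      apply pr_mono'
      intro ω h
      rw [Prod.mk.injEq] at h
      rw [hc, h.1, h.2]
      apply le_of_eq
      ring
    refine e1.trans (le_trans ?_ e2)
    rw [← mul_assoc]
    apply mul_le_mul_of_nonneg_right _ hc0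
    by_cases hG : Gev μ X Y F Rl ω0
    · have h1 : pr (res μ (Gev μ X Y F Rl)) (fun ω => (X ω, F ω)) ω0 ≤
          pr μ (fun ω => (X ω, F ω)) ω0 := pr_mono' _ _ _ _ (fun ω _ => res_le μ hμ _ ω)
      unfold Gev at hG
      refine h1.trans (hG.trans (le_of_eq ?_))
      ring
    · rw [pr_zero' (res μ (Gev μ X Y F Rl)) _ ω0 (fun ω h =>
        res_zero _ _ _ (fun h' => hG ((Gev_iff h).mp h')))]
      exact mul_nonneg (pr_nonneg' _ (res_nn μ hμ _) _ _) zero_le_two
  rw [← Finset.mul_sum] at g2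
  have g3 : - ∑ ω, res μ (Gev μ X Y F Rl) ω * Real.logb 2 (mR μ Y F Rl (F ω) (X ω) / (C * mF μ F (F ω))) =
      Real.logb 2 C * mass (res μ (Gev μ X Y F Rl)) +
      ∑ ω, res μ (Gev μ X Y F Rl) ω * Real.logb 2 (mF μ F (F ω) / mR μ Y F Rl (F ω) (X ω)) := by
    unfold mass
    rw [← Finset.sum_neg_distrib, Finset.mul_sum, ← Finset.sum_add_distrib]
    apply Finset.sum_congr rfl
    intro ω _
    by_cases hω : res μ (Gev μ X Y F Rl) ω = 0
    · rw [hω]
      ring
    · obtain ⟨_, a, b⟩ := hpos ω hω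
      rw [Real.logb_div a.ne' (mul_pos (hC1 ω hω) b).ne', Real.logb_mul (hC1 ω hω).ne' b.ne',
        Real.logb_div b.ne' a.ne']
      ring
  linarith

end Pool.Agent.Helper18.VS
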