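import Pool.Agent.Helper18.VS.Quo

/-!
# Digits in a two-scale frame over a label (vector W): one cell of the label
-/

set_option autoImplicit false

namespace Pool.Agent.Helper18.VS

open Filter Topology Pool.Agent.Helper69.RK Pool.Agent.Helper31.EC QS Sp Pool.Agent.Helper38.NS

noncomputable section

/-- digits in the two-scale frame: level `a` along the columns `J`, level `y` for the quotient -/
def dgt {b : ℕ} (J : Finset (Fin b)) (c : Fin b → Fin b → ℝ) (a y : ℝ) (v : Fin b → ℝ) : Fin b → ℤ :=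
  fun i => if i ∈ J then ⌊(2 : ℝ) ^ a * v i⌋ else ⌊(2 : ℝ) ^ y * (v i - ∑ j ∈ J, c i j * v j)⌋

/-- integer vectors which vary by a subexponential amount on the atoms of `A` are known to `A` -/
theorem io_le_of_near {S : Sp} {m : ℕ} (X : ∀ k, (S.F k).Ω → Fin m → ℤ) (hX : Bdd X) (A : S.Inf) (K : ℕ → ℝ)
    (hK : S.Sub K) (h : ∀ᶠ k in UF, ∀ ω ω', (S.F k).μ ω ≠ 0 → (S.F k).μ ω' ≠ 0 → (S.F k).Z ω ω' →
      A.1 k ω ω' → ∀ i, |(X k ω i : ℝ) - X k ω' i| ≤ K k) : io X ≤ cl A := by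
  rw [io_eq hX, cl_le, Inf.le_def]
  have h1 : Tendsto (fun k => (m : ℝ) * (Real.logb 2 (K k + 2) / (S.F k).n)) UF (𝓝 0) := by
    have := hK.2.const_mul (m : ℝ)
    rwa [mul_zero] at this
  refine tendsto_of_tendsto_of_tendsto_of_le_of_le' tendsto_const_nhds h1
    (Eventually.of_forall fun k => rt_nonneg _ _ k) ?_
  filter_upwards [h, hK.1] with k hk h0
  have hn := (S.F k).pos
  have h2 := (S.F k).e_int_le (X k) (A.1 k ⊓ (S.F k).Z) (K k) h0
    (fun ω ω' a b c i => hk ω ω' a b c.2 c.1 i)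
  show (S.F k).e (Setoid.ker (X k)) (A.1 k ⊓ (S.F k).Z) / (S.F k).n ≤ _
  rw [← mul_div_assoc]
  apply div_le_div_of_nonneg_right _ hn.le
  refine h2.trans ?_
  apply mul_le_mul_of_nonneg_left _ (Nat.cast_nonneg m)
  exact Real.logb_le_logb_of_le one_lt_two (by linarith) (by linarith)

theorem floor_near {a b r K : ℝ} (hr : 0 ≤ r) (h : |a - b| * r ≤ K) : |(⌊r * a⌋ : ℝ) - ⌊r * b⌋| ≤ K + 1 := by
  have h1 := Int.floor_le (r * a)
  have h2 := Int.lt_floor_add_one (r * a)
  have h3 := Int.floor_le (r * b)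
  have h4 := Int.lt_floor_add_one (r * b)
  have h5 : |r * a - r * b| ≤ K := by
    rw [← mul_sub, abs_mul, abs_of_nonneg hr, mul_comm]
    exact h
  rw [abs_le] at h5 ⊢
  constructor <;> linarith [h5.1, h5.2]

theorem near_of_floor {a b r : ℝ} (hr : 0 < r) (h : ⌊r * a⌋ = ⌊r * b⌋) : |a - b| * r ≤ 1 := by
  have h1 := Int.floor_le (r * a)
  have h2 := Int.lt_floor_add_one (r * a)
  have h3 := Int.floor_le (r * b)
  have h4 := Int.lt_floor_add_one (r * b)
  rw [h] at h1 h2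
  have h5 : |r * a - r * b| ≤ 1 := by
    rw [abs_le]
    constructor <;> linarith
  rw [← mul_sub, abs_mul, abs_of_pos hr, mul_comm] at h5
  exact h5

theorem abs_dgt_le {b : ℕ} (J : Finset (Fin b)) (c : Fin b → Fin b → ℝ) (a y R K : ℝ) (v : Fin b → ℝ)
    (ha : (2 : ℝ) ^ a ≤ R) (hy : (2 : ℝ) ^ y ≤ R) (hc : ∀ i j, |c i j| ≤ K) (hv : ∀ i, |v i| ≤ K)
    (i : Fin b) : |(dgt J c a y v i : ℝ)| ≤ R * (K + b * (K * K)) + 1 := by
  have K0 : 0 ≤ K := (abs_nonneg _).trans (hv i)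
  have R0 : 0 ≤ R := (Real.rpow_nonneg zero_le_two a).trans ha
  have key : ∀ x r : ℝ, 0 ≤ r → r ≤ R → |x| ≤ K + b * (K * K) → |(⌊r * x⌋ : ℝ)| ≤ R * (K + b * (K * K)) + 1 := by
    intro x r hr hrR hx
    have h1 := Int.floor_le (r * x)
    have h2 := Int.lt_floor_add_one (r * x)
    have h3 : |r * x| ≤ R * (K + b * (K * K)) := by
      rw [abs_mul, abs_of_nonneg hr]
      exact mul_le_mul hrR hx (abs_nonneg _) R0
    rw [abs_le] at h3 ⊢
    constructor <;> linarith [h3.1, h3.2]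
  have b0 : (0 : ℝ) ≤ b * (K * K) := by positivity
  unfold dgt
  split_ifs with hi
  · exact key _ _ (Real.rpow_nonneg zero_le_two a) ha ((hv i).trans (by linarith))
  · apply key _ _ (Real.rpow_nonneg zero_le_two y) hy
    refine (abs_sub _ _).trans (add_le_add (hv i) ?_)
    calc |∑ j ∈ J, c i j * v j| ≤ ∑ j ∈ J, |c i j * v j| := Finset.abs_sum_le_sum_abs _ _
      _ ≤ ∑ _j ∈ J, K * K := by
          apply Finset.sum_le_sum
          intro j _
          rw [abs_mul]
          exact mul_le_mul (hc i j) (hv j) (abs_nonneg _) K0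
      _ = J.card * (K * K) := by rw [Finset.sum_const, nsmul_eq_mul]
      _ ≤ b * (K * K) := by
          apply mul_le_mul_of_nonneg_right _ (mul_nonneg K0 K0)
          exact_mod_cast (Finset.card_le_univ J).trans (le_of_eq (Fintype.card_fin b))

theorem ev_sum {S : Sp} {ι : Type} (s : Finset ι) (f : ι → TR S) (k : ℕ) (ω : (S.F k).Ω) :
    TR.ev (∑ i ∈ s, f i) k ω = ∑ i ∈ s, TR.ev (f i) k ω := by
  have := map_sum (TR.evh k ω) f s
  exact this

section fin1

variable {T : Sp} {b : ℕ} {z : Fin b → QS T} (zf : Fin b → TR T) {γ : ℕ → Type}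
  (Y : ∀ k, (T.F k).Ω → γ k) (J : Finset (Fin b)) (c : Fin b → Fin b → TR T) (a : ∀ k, (T.F k).Ω → ℝ)

/-- digits of `z` in the frame of the label, levels `a + s n` and `a + e n` -/
def Dg (s e : ℝ) : ∀ k, (T.F k).Ω → Fin b → ℤ := fun k ω =>
  dgt J (fun i j => TR.ev (c i j) k ω) (a k ω + s * (T.F k).n) (a k ω + e * (T.F k).n) (fun i => TR.ev (zf i) k ω)

variable {zf Y J c a}

/-- one subexponential bound for all representatives -/
theorem exists_bd (zf : Fin b → TR T) (c : Fin b → Fin b → TR T) : ∃ K : ℕ → ℝ, T.Sub K ∧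
    ∀ᶠ k in UF, ∀ ω, (T.F k).μ ω ≠ 0 → (∀ i, |TR.ev (zf i) k ω| ≤ K k) ∧ ∀ i j, |TR.ev (c i j) k ω| ≤ K k := by
  obtain ⟨K1, h1, h1'⟩ := (TR.vec zf).bd
  have h2 : ∀ i : Fin b, ∃ K : ℕ → ℝ, T.Sub K ∧ ∀ᶠ k in UF, ∀ ω, (T.F k).μ ω ≠ 0 → ∀ j, |TR.ev (c i j) k ω| ≤ K k :=
    fun i => (TR.vec (c i)).bd
  choose K2 h2 h2' using h2
  refine ⟨fun k => K1 k + ∑ i, K2 i k, ?_, ?_⟩
  · apply h1.add
    have : ∀ s : Finset (Fin b), T.Sub (fun k => ∑ i ∈ s, K2 i k) := by
      intro s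
      induction s using Finset.induction_on with
      | empty => simpa using T.Sub_const le_rfl
      | insert i s hi ih =>
        have h3 := (h2 i).add ih
        simpa [Finset.sum_insert hi] using h3
    exact this Finset.univ
  · have h3 : ∀ᶠ k in UF, ∀ i ∈ (Finset.univ : Finset (Fin b)), (0 ≤ K2 i k) ∧
        ∀ ω, (T.F k).μ ω ≠ 0 → ∀ j, |TR.ev (c i j) k ω| ≤ K2 i k := by
      rw [Filter.eventually_all_finset]
      intro i _
      filter_upwards [(h2 i).1, h2' i] with k a b using ⟨a, b⟩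
    filter_upwards [h1', h1.1, h3] with k p1 p0 p2 ω hω
    have p3 : 0 ≤ ∑ i, K2 i k := Finset.sum_nonneg fun i _ => (p2 i (Finset.mem_univ i)).1
    refine ⟨fun i => (p1 ω hω i).trans (by linarith), fun i j => ?_⟩
    have p4 := (p2 i (Finset.mem_univ i)).2 ω hω j
    have p5 := Finset.single_le_sum (f := fun i => K2 i k) (fun j _ => (p2 j (Finset.mem_univ j)).1)
      (Finset.mem_univ i)
    have p6 : K2 i k ≤ ∑ i, K2 i k := p5
    linarith

theorem n_ge_one (T : Sp) : ∀ᶠ k in UF, 1 ≤ (T.F k).n := T.lim.eventually_ge_atTop 1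

/-- the digits are bounded -/
theorem Dg_bdd {E : ∀ k, (T.F k).Ω → Prop} (hE : 0 < ul (T.pr E)) {s e : ℝ} (hs : s ≤ e)
    (ha : ∀ᶠ k in UF, ∀ ω, (T.F k).μ ω ≠ 0 → E k ω → a k ω + e * (T.F k).n ≤ (T.F k).n) :
    Bdd (S := T.rest E) (Dg (T := T) zf J c a s e) := by
  obtain ⟨K, hK, hb⟩ := exists_bd zf c
  have hL : T.Sub (fun k => K k + b * (K k * K k)) :=
    hK.add ((T.Sub_const (Nat.cast_nonneg b)).mul (hK.mul hK))
  have hpr := eventually_gt_of_lt_ul (UB_pr E) hE
  apply Bdd_int _ (fun k => 2 ^ ((T.F k).n) * (K k + b * (K k * K k)) + 1) 3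
  · filter_upwards [hb, ha, hpr] with k h1 h2 h3 ω hω i
    obtain ⟨p1, p2⟩ := (T.F k).rest_supp (E k) ω hω
    have p3 := p2 h3.ne'
    have hn := (T.F k).pos
    have h4 := h2 ω p1 p3
    have h5 : s * (T.F k).n ≤ e * (T.F k).n := mul_le_mul_of_nonneg_right hs hn.le
    apply abs_dgt_le
    · apply Real.rpow_le_rpow_of_exponent_le one_le_two
      linarith
    · exact Real.rpow_le_rpow_of_exponent_le one_le_two h4
    · exact fun i j => (h1 ω p1).2 i j
    · exact fun i => (h1 ω p1).1 i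
  · filter_upwards [hL.eventually_le one_pos, n_ge_one T, hL.1] with k h1 h2 h3
    rw [one_mul] at h1
    show 2 * (2 ^ ((T.F k).n) * (K k + b * (K k * K k)) + 1) + 1 ≤ (2 : ℝ) ^ (3 * (T.F k).n)
    set L := K k + b * (K k * K k) with hLd
    set P := (2 : ℝ) ^ ((T.F k).n) with hP
    have h4 : (2 : ℝ) ≤ P := by
      rw [hP]
      calc (2 : ℝ) = 2 ^ (1 : ℝ) := (Real.rpow_one 2).symm
        _ ≤ 2 ^ ((T.F k).n) := Real.rpow_le_rpow_of_exponent_le one_le_two h2
    have h5 : (2 : ℝ) ^ (3 * (T.F k).n) = P * P * P := by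
      rw [hP, ← Real.rpow_add zero_lt_two, ← Real.rpow_add zero_lt_two]
      congr 1
      ring
    rw [h5]
    have h6 : L ≤ P - 2 := by linarith
    have h3' : 0 ≤ L := h3
    have h7 : P * L ≤ P * (P - 2) := mul_le_mul_of_nonneg_left h6 (by linarith)
    nlinarith [mul_nonneg (by linarith : (0 : ℝ) ≤ P - 2) (mul_nonneg (by linarith : (0 : ℝ) ≤ P) (by linarith : (0 : ℝ) ≤ P))]

/-- the quotient as tame functions -/
def zqf (zf : Fin b → TR T) (J : Finset (Fin b)) (c : Fin b → Fin b → TR T) (i : Fin b) : TR T :=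
  if i ∈ J then 0 else zf i - ∑ j ∈ J, c i j * zf j

theorem zqf_ev (i : Fin b) (hi : i ∉ J) (k : ℕ) (ω : (T.F k).Ω) : TR.ev (zqf zf J c i) k ω =
    TR.ev (zf i) k ω - ∑ j ∈ J, TR.ev (c i j) k ω * TR.ev (zf j) k ω := by
  unfold zqf
  rw [if_neg hi, TR.ev_sub, ev_sum]
  rfl

theorem zqf_dg (hz : ∀ i, QS.mk (zf i) = z i) {E : ∀ k, (T.F k).Ω → Prop} (hE : 0 < ul (T.pr E)) {r : ℝ}
    (hr : r ≤ 1) (i : {i // i ∉ J}) : TR.dg (TR.rest E (zqf zf J c i)) r =
      restL E hE (QS.dg (zq J (fun i j => QS.mk (c i j)) z i) r) := by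
  rw [TR.rest_dg E hE]
  congr 1
  have : zq J (fun i j => QS.mk (c i j)) z i = QS.mk (zqf zf J c i) := by
    unfold zq zqf
    rw [if_neg i.2, map_sub, map_sum, hz]
    congr 1
    apply Finset.sum_congr rfl
    intro j _
    rw [map_mul, hz]
  rw [this, QS.dg_mk _ hr]

/-- **ONE CELL OF THE LABEL** -/
theorem fin1 {ρ : ℝ} (hz : ∀ i, QS.mk (zf i) = z i) (hY : Bdd Y) (hu : UQi T z (io Y) ρ) (hJ : J.Nonempty)
    (hc : ∀ᶠ k in UF, ∀ ω ω', (T.F k).μ ω ≠ 0 → (T.F k).μ ω' ≠ 0 → Y k ω = Y k ω' → ∀ i j,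
      TR.ev (c i j) k ω = TR.ev (c i j) k ω')
    {E : ∀ k, (T.F k).Ω → Prop} (hE : 0 < ul (T.pr E)) {α η s e : ℝ} (α0 : 0 ≤ α) (η0 : 0 ≤ η) (s0 : 0 ≤ s)
    (se : s ≤ e) (h1 : α + η + e ≤ 1)
    (ha : ∀ᶠ k in UF, ∀ ω, (T.F k).μ ω ≠ 0 → E k ω → α * (T.F k).n ≤ a k ω ∧ a k ω ≤ (α + η) * (T.F k).n)
    (haY : ∀ᶠ k in UF, ∀ ω ω', (T.F k).μ ω ≠ 0 → (T.F k).μ ω' ≠ 0 → E k ω → E k ω' → Y k ω = Y k ω' →
      a k ω = a k ω') :
    Helper31.EC.h (io (S := T.rest E) (Dg (T := T) zf J c a s e))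
      (io (S := T.rest E) (fun k ω => (Dg (T := T) zf J c a 0 e k ω, Y k ω))) ≤
      (J.card - ρ) * (s + η) + (b - J.card) * η := by
  have hpr := eventually_gt_of_lt_ul (UB_pr E) hE
  have ha' : ∀ᶠ k in UF, ∀ ω, (T.F k).μ ω ≠ 0 → E k ω → a k ω + e * (T.F k).n ≤ (T.F k).n := by
    filter_upwards [ha] with k hk ω p1 p2
    have hn := (T.F k).pos
    have h3 := (hk ω p1 p2).2
    have h4 := mul_le_mul_of_nonneg_right h1 hn.le
    linarith
  have B1 : Bdd (S := T.rest E) (Dg (T := T) zf J c a s e) := Dg_bdd hE se ha'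
  have B0 : Bdd (S := T.rest E) (Dg (T := T) zf J c a 0 e) := Dg_bdd hE (s0.trans se) ha'
  have BY : Bdd (S := T.rest E) Y := rest_VB E hY
  have BP : Bdd (S := T.rest E) (fun k ω => (Dg (T := T) zf J c a 0 e k ω, Y k ω)) := B0.pair BY
  obtain ⟨K, hK, hb⟩ := exists_bd zf c
  have hK' : (T.rest E).Sub K := hK
  -- the given data on the restricted space
  have supp : ∀ᶠ k in UF, ∀ ω, ((T.rest E).F k).μ ω ≠ 0 → (T.F k).μ ω ≠ 0 ∧ E k ω := by
    filter_upwards [hpr] with k hk ω hω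
    obtain ⟨p1, p2⟩ := (T.F k).rest_supp (E k) ω hω
    exact ⟨p1, p2 hk.ne'⟩
  set zr : Fin b → TR (T.rest E) := fun i => TR.rest E (zf i) with hzr
  set zqr : Fin b → TR (T.rest E) := fun i => TR.rest E (zqf zf J c i) with hzqr
  -- (ii) the fine digits
  have ii : io (S := T.rest E) (Dg (T := T) zf J c a s e) ≤
      ((TR.vec zr).dg (α + η + s) ⊔ (TR.vec zqr).dg (α + η + e)) ⊔ io (S := T.rest E) Y := by
    have e0 : ((TR.vec zr).dg (α + η + s) ⊔ (TR.vec zqr).dg (α + η + e)) ⊔ io (S := T.rest E) Y =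
        cl ((((TR.vec zr).bdd (α + η + s)).pair ((TR.vec zqr).bdd (α + η + e))).pair BY).toInf := by
      rw [← io_eq]
      have e1 := io_pair (S := T.rest E) (((TR.vec zr).bdd (α + η + s)).pair ((TR.vec zqr).bdd (α + η + e))) BY
      have e2 := io_pair (S := T.rest E) ((TR.vec zr).bdd (α + η + s)) ((TR.vec zqr).bdd (α + η + e))
      rw [e2] at e1
      exact e1.symm
    rw [e0]
    apply io_le_of_near _ B1 _ (fun _ => 2) ((T.rest E).Sub_const zero_le_two)
    filter_upwards [supp, ha, haY, hc] with k q0 q1 q2 q3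
    intro (ω : (T.F k).Ω) (ω' : (T.F k).Ω) hω hω' _ hA i
    obtain ⟨p1, p2⟩ := q0 ω hω
    obtain ⟨p1', p2'⟩ := q0 ω' hω'
    have hn : 0 < (T.F k).n := (T.F k).pos
    have hA' : (((TR.vec zr).cellv (α + η + s) k ω, (TR.vec zqr).cellv (α + η + e) k ω), Y k ω) =
        (((TR.vec zr).cellv (α + η + s) k ω', (TR.vec zqr).cellv (α + η + e) k ω'), Y k ω') := hA
    rw [Prod.mk.injEq, Prod.mk.injEq] at hA'
    obtain ⟨⟨g1, g2⟩, g3⟩ := hA'
    have ea : a k ω = a k ω' := q2 ω ω' p1 p1' p2 p2' g3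
    have u1 : ∀ i, |TR.ev (zf i) k ω - TR.ev (zf i) k ω'| ≤ T.dl (α + η + s) k := fun i =>
      (TR.vec zr).cellv_close (α + η + s) k ω ω' g1 i
    have u2 : ∀ i, |TR.ev (zqf zf J c i) k ω - TR.ev (zqf zf J c i) k ω'| ≤ T.dl (α + η + e) k := fun i =>
      (TR.vec zqr).cellv_close (α + η + e) k ω ω' g2 i
    have hal := (q1 ω p1 p2).2
    have m1 : ∀ x t : ℝ, x ≤ T.dl (α + η + t) k → 0 ≤ x → x * (2 : ℝ) ^ (a k ω + t * (T.F k).n) ≤ 1 := by
      intro x t hx hx0
      have h2 : (2 : ℝ) ^ (a k ω + t * (T.F k).n) ≤ (2 : ℝ) ^ ((α + η + t) * (T.F k).n) := by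
        apply Real.rpow_le_rpow_of_exponent_le one_le_two
        linarith
      calc x * (2 : ℝ) ^ (a k ω + t * (T.F k).n) ≤ T.dl (α + η + t) k * (2 : ℝ) ^ ((α + η + t) * (T.F k).n) :=
            mul_le_mul hx h2 (Real.rpow_nonneg zero_le_two _) (T.dl_pos _ k).le
        _ = 1 := by
            unfold dl
            rw [← Real.rpow_add zero_lt_two, neg_add_cancel, Real.rpow_zero]
    unfold Dg dgt
    rw [← ea]
    split_ifs with hi
    · have h3 := floor_near (Real.rpow_nonneg zero_le_two (a k ω + s * (T.F k).n)) (m1 _ s (u1 i) (abs_nonneg _))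
      norm_num at h3
      exact h3
    · have h3 := u2 i
      rw [zqf_ev i hi, zqf_ev i hi] at h3
      have h4 := floor_near (Real.rpow_nonneg zero_le_two (a k ω + e * (T.F k).n)) (m1 _ e h3 (abs_nonneg _))
      norm_num at h4
      exact h4
  -- (i) the coarse digits
  have i1 : ∀ i, TR.dg (zr i) α ≤ io (S := T.rest E) (fun k ω => (Dg (T := T) zf J c a 0 e k ω, Y k ω)) := by
    have hsub : (T.rest E).Sub (fun k => 1 + b * K k) :=
      ((T.rest E).Sub_const zero_le_one).add (((T.rest E).Sub_const (Nat.cast_nonneg b)).mul hK')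
    have h2 := VV.dg_le_io (TR.vec zr) α BP (fun _ _ => True) Typ_true (fun k => 1 + b * K k) hsub (by
      filter_upwards [supp, ha, haY, hc, hb, hK.1] with k q0 q1 q2 q3 q4 q5
      intro (ω : (T.F k).Ω) (ω' : (T.F k).Ω) hω hω' _ _ _ hA i
      obtain ⟨p1, p2⟩ := q0 ω hω
      obtain ⟨p1', p2'⟩ := q0 ω' hω'
      have hn : 0 < (T.F k).n := (T.F k).pos
      rw [Prod.mk.injEq] at hA
      obtain ⟨g1, g3⟩ := hA
      have ea : a k ω = a k ω' := q2 ω ω' p1 p1' p2 p2' g3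
      have ec := q3 ω ω' p1 p1' g3
      have hal := (q1 ω p1 p2).1
      show |TR.ev (zf i) k ω - TR.ev (zf i) k ω'| ≤ (1 + b * K k) * T.dl α k
      have d0 := T.dl_pos α k
      -- from the floors to the distances
      have m2 : ∀ x t : ℝ, 0 ≤ t → 0 ≤ x → x * (2 : ℝ) ^ (a k ω + t * (T.F k).n) ≤ 1 → x ≤ T.dl α k := by
        intro x t ht hx0 hx
        have h2 : (2 : ℝ) ^ (α * (T.F k).n) ≤ (2 : ℝ) ^ (a k ω + t * (T.F k).n) := by
          apply Real.rpow_le_rpow_of_exponent_le one_le_two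
          have := mul_nonneg ht hn.le
          linarith
        have h3 : x * (2 : ℝ) ^ (α * (T.F k).n) ≤ 1 := (mul_le_mul_of_nonneg_left h2 hx0).trans hx
        unfold dl
        rw [Real.rpow_neg zero_le_two, ← one_div, le_div_iff₀ (Real.rpow_pos_of_pos zero_lt_two _)]
        exact h3
      have vJ : ∀ j ∈ J, |TR.ev (zf j) k ω - TR.ev (zf j) k ω'| ≤ T.dl α k := by
        intro j hj
        have h2 := congrFun g1 j
        unfold Dg dgt at h2
        rw [if_pos hj, if_pos hj, ← ea] at h2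
        exact m2 _ 0 le_rfl (abs_nonneg _) (near_of_floor (Real.rpow_pos_of_pos zero_lt_two _) h2)
      by_cases hi : i ∈ J
      · refine (vJ i hi).trans ?_
        have : 0 ≤ b * K k * T.dl α k := mul_nonneg (mul_nonneg (Nat.cast_nonneg b) q5) d0.le
        linarith
      · have h2 := congrFun g1 i
        unfold Dg dgt at h2
        rw [if_neg hi, if_neg hi, ← ea] at h2
        have h3 := m2 _ e (s0.trans se) (abs_nonneg _) (near_of_floor (Real.rpow_pos_of_pos zero_lt_two _) h2)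
        have e1 : TR.ev (zf i) k ω - TR.ev (zf i) k ω' =
            (TR.ev (zf i) k ω - ∑ j ∈ J, TR.ev (c i j) k ω * TR.ev (zf j) k ω -
            (TR.ev (zf i) k ω' - ∑ j ∈ J, TR.ev (c i j) k ω' * TR.ev (zf j) k ω')) +
            ∑ j ∈ J, TR.ev (c i j) k ω * (TR.ev (zf j) k ω - TR.ev (zf j) k ω') := by
          have : ∑ j ∈ J, TR.ev (c i j) k ω * (TR.ev (zf j) k ω - TR.ev (zf j) k ω') =
              ∑ j ∈ J, TR.ev (c i j) k ω * TR.ev (zf j) k ω - ∑ j ∈ J, TR.ev (c i j) k ω' * TR.ev (zf j) k ω' := by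
            rw [← Finset.sum_sub_distrib]
            apply Finset.sum_congr rfl
            intro j _
            rw [← ec i j]
            ring
          rw [this]
          ring
        rw [e1]
        refine (abs_add_le _ _).trans ?_
        have h4 : |∑ j ∈ J, TR.ev (c i j) k ω * (TR.ev (zf j) k ω - TR.ev (zf j) k ω')| ≤ b * K k * T.dl α k := by
          calc |∑ j ∈ J, TR.ev (c i j) k ω * (TR.ev (zf j) k ω - TR.ev (zf j) k ω')|
              ≤ ∑ j ∈ J, |TR.ev (c i j) k ω * (TR.ev (zf j) k ω - TR.ev (zf j) k ω')| :=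
                Finset.abs_sum_le_sum_abs _ _
            _ ≤ ∑ _j ∈ J, K k * T.dl α k := by
                apply Finset.sum_le_sum
                intro j hj
                rw [abs_mul]
                exact mul_le_mul ((q4 ω p1).2 i j) (vJ j hj) (abs_nonneg _) q5
            _ = J.card * (K k * T.dl α k) := by rw [Finset.sum_const, nsmul_eq_mul]
            _ ≤ b * (K k * T.dl α k) := by
                apply mul_le_mul_of_nonneg_right _ (mul_nonneg q5 d0.le)
                exact_mod_cast (Finset.card_le_univ J).trans (le_of_eq (Fintype.card_fin b))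
            _ = b * K k * T.dl α k := by ring
        linarith)
    intro i
    exact (TR.cor_dg_le (TR.vec zr) i α).trans h2
  have i2 : ∀ i, TR.dg (zqr i) (α + e) ≤ io (S := T.rest E) (fun k ω => (Dg (T := T) zf J c a 0 e k ω, Y k ω)) := by
    have h2 := VV.dg_le_io (TR.vec zqr) (α + e) BP (fun _ _ => True) Typ_true (fun _ => 1)
      ((T.rest E).Sub_const zero_le_one) (by
      filter_upwards [supp, ha, haY] with k q0 q1 q2
      intro (ω : (T.F k).Ω) (ω' : (T.F k).Ω) hω hω' _ _ _ hA i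
      obtain ⟨p1, p2⟩ := q0 ω hω
      obtain ⟨p1', p2'⟩ := q0 ω' hω'
      have hn : 0 < (T.F k).n := (T.F k).pos
      rw [Prod.mk.injEq] at hA
      obtain ⟨g1, g3⟩ := hA
      have ea : a k ω = a k ω' := q2 ω ω' p1 p1' p2 p2' g3
      have hal := (q1 ω p1 p2).1
      show |TR.ev (zqf zf J c i) k ω - TR.ev (zqf zf J c i) k ω'| ≤ 1 * T.dl (α + e) k
      rw [one_mul]
      by_cases hi : i ∈ J
      · unfold zqf
        rw [if_pos hi, TR.ev_zero, TR.ev_zero, sub_self, abs_zero]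
        exact (T.dl_pos _ k).le
      · have h2 := congrFun g1 i
        unfold Dg dgt at h2
        rw [if_neg hi, if_neg hi, ← ea] at h2
        have h3 := near_of_floor (Real.rpow_pos_of_pos zero_lt_two _) h2
        rw [zqf_ev i hi, zqf_ev i hi]
        have h4 : (2 : ℝ) ^ ((α + e) * (T.F k).n) ≤ (2 : ℝ) ^ (a k ω + e * (T.F k).n) := by
          apply Real.rpow_le_rpow_of_exponent_le one_le_two
          linarith
        have h5 := (mul_le_mul_of_nonneg_left h4 (abs_nonneg _)).trans h3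
        unfold dl
        rw [Real.rpow_neg zero_le_two, ← one_div, le_div_iff₀ (Real.rpow_pos_of_pos zero_lt_two _)]
        exact h5)
    intro i
    exact (TR.cor_dg_le (TR.vec zqr) i (α + e)).trans h2
  -- assembly
  have a11 : α + η + s ≤ 1 := by linarith
  have key := quo_two hu (Pj.id T) ⊥ J hJ (fun i j => QS.mk (c i j)) (by
      intro i _ j _
      rw [sup_bot_eq, Pj.id_map, QS.dg_mk _ le_rfl]
      apply TR.dg_le_cl _ _ _ _ _ _ _ _ |>.trans (le_of_eq (io_eq hY).symm)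
      · exact fun _ _ => True
      · exact Typ_true
      · exact fun _ => 0
      · exact T.Sub_const le_rfl
      · filter_upwards [hc] with k hk ω ω' p1 p2 _ _ _ hA
        have : Y k ω = Y k ω' := hA
        rw [hk ω ω' p1 p2 this i j, sub_self, abs_zero, zero_mul])
    (I_zero_of_le_right bot_le) E hE (α + η + s) α (α + η + e) (α + e) α0 (by linarith) (by linarith)
    (by linarith) (by linarith) h1
  have e1 : (fun i => (Pj.id T).qs (z i)) = z := by
    funext i
    obtain ⟨f, hf⟩ := QS.mk_surj (z i)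
    rw [← hf]
    rfl
  rw [e1, Pj.id_map, Pj.id_map, Pj.id_map, sup_bot_eq] at key
  rw [Fintype.card_fin] at key
  have k2 : (J.card - ρ) * (α + η + s - α) + (b - J.card) * (α + η + e - (α + e)) =
      (J.card - ρ) * (s + η) + (b - J.card) * η := by ring
  rw [k2] at key
  refine le_trans ?_ key
  have v1 : (TR.vec zr).dg (α + η + s) ≤ restL E hE (vd z (α + η + s)) := by
    rw [TR.vec_dg_le_iff]
    intro i
    rw [hzr]
    beta_reduce
    rw [TR.rest_dg E hE]
    apply restL_mono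
    have h3 := dg_le_vd z (α + η + s) i
    rw [← hz i, QS.dg_mk _ a11] at h3
    exact h3
  have v2 : (TR.vec zqr).dg (α + η + e) ≤ restL E hE (vd (zq J (fun i j => QS.mk (c i j)) z) (α + η + e)) := by
    rw [TR.vec_dg_le_iff]
    intro i
    by_cases hi : i ∈ J
    · have h3 : zqr i = 0 := by
        rw [hzqr]
        beta_reduce
        unfold zqf
        rw [if_pos hi, map_zero]
      rw [h3, TR.const_dg (0 : TR (T.rest E)) (Eventually.of_forall fun _ _ _ => rfl)]
      exact bot_le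
    · have h3 := zqf_dg (zf := zf) (J := J) (c := c) hz hE h1 ⟨i, hi⟩
      rw [hzqr]
      beta_reduce
      rw [h3]
      apply restL_mono
      exact dg_le_vd (zq J (fun i j => QS.mk (c i j)) z) (α + η + e) ⟨i, hi⟩
  have v3 : restL E hE (vd z α) ≤ io (S := T.rest E) (fun k ω => (Dg (T := T) zf J c a 0 e k ω, Y k ω)) := by
    rw [← QS.rest_vd, vd_le]
    intro i
    have h3 := i1 i
    rw [hzr] at h3
    beta_reduce at h3
    rw [← QS.dg_mk _ (by linarith : α ≤ 1), ← QS.rest_mk E hE, hz i] at h3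
    exact h3
  have v4 : restL E hE (vd (zq J (fun i j => QS.mk (c i j)) z) (α + e)) ≤
      io (S := T.rest E) (fun k ω => (Dg (T := T) zf J c a 0 e k ω, Y k ω)) := by
    rw [← QS.rest_vd, vd_le]
    intro i
    have h3 := i2 i
    rw [hzqr] at h3
    beta_reduce at h3
    rw [zqf_dg (zf := zf) (J := J) (c := c) hz hE (by linarith : α + e ≤ 1) i] at h3
    rw [QS.rest_dg]
    exact h3
  have v5 : restL E hE (io Y) = io (S := T.rest E) Y := restL_io E hE hY
  have v6 : io (S := T.rest E) Y ≤ io (S := T.rest E) (fun k ω => (Dg (T := T) zf J c a 0 e k ω, Y k ω)) := by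
    rw [io_pair B0 BY]
    exact le_sup_right
  have w1 : io (S := T.rest E) (Dg (T := T) zf J c a s e) ≤
      restL E hE (vd z (α + η + s) ⊔ vd (zq J (fun i j => QS.mk (c i j)) z) (α + η + e)) ⊔
      io (S := T.rest E) (fun k ω => (Dg (T := T) zf J c a 0 e k ω, Y k ω)) := by
    refine ii.trans (sup_le_sup ?_ v6)
    rw [restL_sup]
    exact sup_le_sup v1 v2
  refine (h_mono w1).trans ?_
  rw [h_sup_right_of_le le_rfl]
  apply h_anti
  rw [restL_sup, restL_sup, v5]
  exact sup_le (sup_le v3 v4) v6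

end fin1

end

end Pool.Agent.Helper18.VS
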