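import Pool.Agent.Helper38.NS.UQi

/-!
# Quotients of a vector with deficit by a subspace of any dimension (vector W)
-/

set_option autoImplicit false

namespace Pool.Agent.Helper18.VS

open Filter Topology Pool.Agent.Helper69.RK Pool.Agent.Helper31.EC QS Sp Pool.Agent.Helper38.NS

noncomputable section

variable {S T : Sp} {ν : Type}

/-- `z` modulo the span of the columns `j ∈ J` of the matrix with the identity in the rows `J` and `c` in the
other rows -/
def zq (J : Finset ν) (c : ν → ν → QS T) (z : ν → QS T) : {i // i ∉ J} → QS T :=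
  fun i => z i - ∑ j ∈ J, c i j * z j

theorem zq_level {J : Finset ν} {c : ν → ν → QS T} {z : ν → QS T} {A : T.L} {k : ℝ} (hk : k ≤ 1)
    (hc : ∀ i, i ∉ J → ∀ j ∈ J, dg (c i j) 1 ≤ A) (hz : ∀ i, dg (z i) k ≤ A) (i : {i // i ∉ J}) :
    dg (zq J c z i) k ≤ A := by
  apply (Kn T k hk A).sub_mem (hz i)
  apply (Kn T k hk A).sum_mem
  intro j hj
  exact (Kn T k hk A).mul_mem ((dg_mono _ hk).trans (hc i i.2 j hj)) (hz j)

/-- upper bound for the new digits of a family whose digits of level `a` are known -/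
theorem h_fam_le {ι : Type} (s : Finset ι) (f : ι → QS T) {a k : ℝ} (hak : a ≤ k) {A : T.L}
    (hA : ∀ i ∈ s, dg (f i) a ≤ A) :
    Helper31.EC.h (s.sup fun i => dg (f i) k) A ≤ s.card * (k - a) := by
  refine (h_finsup_le s _ A).trans ?_
  calc ∑ i ∈ s, Helper31.EC.h (dg (f i) k) A ≤ ∑ _i ∈ s, (k - a) :=
        Finset.sum_le_sum fun i hi => (h_anti (hA i hi)).trans (h_dg_dg (f i) hak)
    _ = s.card * (k - a) := by rw [Finset.sum_const, nsmul_eq_mul]

variable [Fintype ν] {z : ν → QS S} {B : S.L} {ρ : ℝ}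

/-- the quotient by an `r`-dimensional space is full -/
theorem quo_full [DecidableEq ν] (hu : UQi S z B ρ) (p : Pj T S) (X : T.L) (J : Finset ν) (hJ : J.Nonempty)
    (c : ν → ν → QS T) (hc : ∀ i, i ∉ J → ∀ j ∈ J, dg (c i j) 1 ≤ p.map B ⊔ X)
    (hI : I (p.map (vd z 1)) X (p.map B) = 0) (a k : ℝ) (a0 : 0 ≤ a) (hak : a ≤ k) (k1 : k ≤ 1) :
    Helper31.EC.h (vd (zq J c fun i => p.qs (z i)) k) (p.map B ⊔ X ⊔ p.map (vd z a)) =
      (Fintype.card ν - J.card) * (k - a) := by
  classical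
  set Y := p.map B ⊔ X ⊔ p.map (vd z a) with hY
  have hza : ∀ i, dg (p.qs (z i)) a ≤ Y := by
    intro i
    rw [p.qs_dg]
    exact (p.map_mono (dg_le_vd z a i)).trans le_sup_right
  have hcY : ∀ i, i ∉ J → ∀ j ∈ J, dg (c i j) 1 ≤ Y := fun i hi j hj => (hc i hi j hj).trans le_sup_left
  have hcard : Fintype.card {i // i ∉ J} = Fintype.card ν - J.card := by
    rw [Fintype.card_subtype_compl, Fintype.card_coe]
  have hJc : J.card ≤ Fintype.card ν := J.card_le_univ
  apply le_antisymm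
  · have h1 := h_fam_le Finset.univ (zq J c fun i => p.qs (z i)) hak (A := Y)
      (fun i _ => zq_level (hak.trans k1) hcY hza i)
    rw [Finset.card_univ, hcard, Nat.cast_sub hJc] at h1
    exact h1
  · obtain ⟨j0, hj0⟩ := hJ
    set w : ν → QS T := fun i => if i = j0 then 1 else if i ∈ J then 0 else c i j0 with hw
    have w0 : w j0 = 1 := by rw [hw]; beta_reduce; rw [if_pos rfl]
    have h1 := hu.Qi T p X w j0 a k a0 hak k1
      (I_zero_mono hI ((p.map_mono (vd_mono z k1)).trans le_sup_left) le_sup_left)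
      (by
        intro i
        rw [hw]
        beta_reduce
        split_ifs with e1 e2
        · exact (Kn T 1 le_rfl _).one_mem
        · exact (Kn T 1 le_rfl _).zero_mem
        · exact hc i e2 j0 hj0)
      (by rw [w0]; exact isUnit_one)
    set D : T.L := (J.erase j0).sup fun j => dg (p.qs (z j)) k with hD
    have hDj : ∀ j ∈ J, j ≠ j0 → dg (p.qs (z j)) k ≤ D := by
      intro j hj hne
      exact Finset.le_sup (f := fun j => dg (p.qs (z j)) k) (Finset.mem_erase.mpr ⟨hne, hj⟩)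
    have h2 : vd (fun i => p.qs (z i) * w j0 - p.qs (z j0) * w i) k ≤
        (D ⊔ vd (zq J c fun i => p.qs (z i)) k) ⊔ Y := by
      rw [vd_le]
      intro i
      rw [w0, mul_one]
      by_cases e1 : i = j0
      · rw [e1, w0, mul_one, sub_self]
        exact (Kn T k k1 _).zero_mem
      by_cases e2 : i ∈ J
      · have : w i = 0 := by rw [hw]; beta_reduce; rw [if_neg e1, if_pos e2]
        rw [this, mul_zero, sub_zero]
        exact (hDj i e2 e1).trans (le_sup_left.trans le_sup_left)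
      · have hwi : w i = c i j0 := by rw [hw]; beta_reduce; rw [if_neg e1, if_neg e2]
        rw [hwi]
        have e3 : p.qs (z i) - p.qs (z j0) * c i j0 = zq J c (fun i => p.qs (z i)) ⟨i, e2⟩ +
            ∑ j ∈ J.erase j0, c i j * p.qs (z j) := by
          unfold zq
          beta_reduce
          rw [← Finset.add_sum_erase J _ hj0]
          ring
        rw [e3]
        apply (Kn T k k1 _).add_mem
        · exact (dg_le_vd _ k _).trans (le_sup_right.trans le_sup_left)
        · apply (Kn T k k1 _).sum_mem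
          intro j hj
          rw [Finset.mem_erase] at hj
          apply (Kn T k k1 _).mul_mem
          · exact (dg_mono _ k1).trans ((hcY i e2 j hj.2).trans le_sup_right)
          · exact (hDj j hj.2 hj.1).trans (le_sup_left.trans le_sup_left)
    have h3 : Helper31.EC.h (vd (fun i => p.qs (z i) * w j0 - p.qs (z j0) * w i) k) Y ≤
        Helper31.EC.h (D ⊔ vd (zq J c fun i => p.qs (z i)) k) Y := by
      refine (h_mono h2).trans (le_of_eq ?_)
      exact h_sup_right_of_le le_rfl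
    have h4 := h_sup_le D (vd (zq J c fun i => p.qs (z i)) k) Y
    have h5 := h_fam_le (J.erase j0) (fun i => p.qs (z i)) hak (A := Y) (fun i _ => hza i)
    rw [Finset.card_erase_of_mem hj0] at h5
    have h6 : ((J.card - 1 : ℕ) : ℝ) = J.card - 1 := by
      have : 1 ≤ J.card := Finset.card_pos.mpr ⟨j0, hj0⟩
      push_cast [Nat.cast_sub this]
      ring
    rw [h6] at h5
    rw [h1] at h3
    have h7 : Helper31.EC.h D Y ≤ (J.card - 1) * (k - a) := h5
    nlinarith

theorem zq_rest [DecidableEq ν] {E : ∀ k, (T.F k).Ω → Prop} (hE : 0 < ul (T.pr E)) (J : Finset ν) (c : ν → ν → QS T)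
    (z : ν → QS T) (k : ℝ) : restL E hE (vd (zq J c z) k) =
      vd (fun i => QS.rest E hE (zq J c z i)) k := (QS.rest_vd E hE _ k).symm

/-- the quotient is full on events of positive probability -/
theorem quo_rest [DecidableEq ν] (hu : UQi S z B ρ) (p : Pj T S) (X : T.L) (J : Finset ν) (hJ : J.Nonempty)
    (c : ν → ν → QS T) (hc : ∀ i, i ∉ J → ∀ j ∈ J, dg (c i j) 1 ≤ p.map B ⊔ X)
    (hI : I (p.map (vd z 1)) X (p.map B) = 0) (E : ∀ k, (T.F k).Ω → Prop) (hE : 0 < ul (T.pr E))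
    (a k : ℝ) (a0 : 0 ≤ a) (hak : a ≤ k) (k1 : k ≤ 1) :
    Helper31.EC.h (restL E hE (vd (zq J c fun i => p.qs (z i)) k))
      (restL E hE (p.map B ⊔ X ⊔ p.map (vd z a))) = (Fintype.card ν - J.card) * (k - a) := by
  apply h_rest_max E hE (quo_full hu p X J hJ c hc hI a k a0 hak k1)
  intro E' hE'
  have hcard : Fintype.card {i // i ∉ J} = Fintype.card ν - J.card := by
    rw [Fintype.card_subtype_compl, Fintype.card_coe]
  have hJc : J.card ≤ Fintype.card ν := J.card_le_univ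
  have h1 := h_fam_le (T := T.rest E') Finset.univ (fun i => QS.rest E' hE' (zq J c (fun i => p.qs (z i)) i)) hak
    (A := restL E' hE' (p.map B ⊔ X ⊔ p.map (vd z a))) (by
      intro i _
      rw [QS.rest_dg]
      apply restL_mono
      apply zq_level (hak.trans k1)
      · intro i hi j hj
        exact (hc i hi j hj).trans le_sup_left
      · intro i
        rw [p.qs_dg]
        exact (p.map_mono (dg_le_vd z a i)).trans le_sup_right)
  rw [Finset.card_univ, hcard, Nat.cast_sub hJc] at h1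
  rw [zq_rest hE']
  exact h1

/-- **TWO SCALES**: the new information of the cells `(a1; y1)` over the cells `(a2; y2)` -/
theorem quo_two [DecidableEq ν] (hu : UQi S z B ρ) (p : Pj T S) (X : T.L) (J : Finset ν) (hJ : J.Nonempty)
    (c : ν → ν → QS T) (hc : ∀ i, i ∉ J → ∀ j ∈ J, dg (c i j) 1 ≤ p.map B ⊔ X)
    (hI : I (p.map (vd z 1)) X (p.map B) = 0) (E : ∀ k, (T.F k).Ω → Prop) (hE : 0 < ul (T.pr E))
    (a1 a2 y1 y2 : ℝ) (h0 : 0 ≤ a2) (h1 : a2 ≤ a1) (h2 : a1 ≤ y1) (h3 : a2 ≤ y2) (h4 : y2 ≤ y1) (h5 : y1 ≤ 1) :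
    Helper31.EC.h (restL E hE (p.map (vd z a1) ⊔ vd (zq J c fun i => p.qs (z i)) y1))
      (restL E hE (p.map (vd z a2) ⊔ vd (zq J c fun i => p.qs (z i)) y2 ⊔ (p.map B ⊔ X))) ≤
      (J.card - ρ) * (a1 - a2) + (Fintype.card ν - J.card) * (y1 - y2) := by
  set A1 := restL E hE (p.map (vd z a1)) with hA1
  set A2 := restL E hE (p.map (vd z a2)) with hA2
  set Z1 := restL E hE (vd (zq J c fun i => p.qs (z i)) y1) with hZ1
  set Z2 := restL E hE (vd (zq J c fun i => p.qs (z i)) y2) with hZ2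
  set B0 := restL E hE (p.map B ⊔ X) with hB0
  have l1 : A2 ≤ A1 := restL_mono E hE (p.map_mono (vd_mono z h1))
  have l2 : Z2 ≤ Z1 := restL_mono E hE (vd_mono _ h4)
  have q1 := quo_rest hu p X J hJ c hc hI E hE a1 y1 (h0.trans h1) h2 h5
  have q2 := quo_rest hu p X J hJ c hc hI E hE a2 y2 h0 h3 (h4.trans h5)
  rw [restL_sup] at q1 q2
  have u1 := hu.Ui T p E hE a2 a1 h0 h1 (h2.trans h5)
  have u2 : Helper31.EC.h A1 (B0 ⊔ A2) ≤ (Fintype.card ν - ρ) * (a1 - a2) := by
    refine (h_anti ?_).trans u1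
    rw [p.map_sup, restL_sup]
    exact sup_le_sup_right (restL_mono E hE le_sup_left) _
  rw [restL_sup, restL_sup, restL_sup]
  change Helper31.EC.h (A1 ⊔ Z1) (A2 ⊔ Z2 ⊔ B0) ≤ _
  have e1 : (A1 ⊔ Z1) ⊔ (A2 ⊔ Z2 ⊔ B0) = Z1 ⊔ (B0 ⊔ A1) := by order
  have e2 : A2 ⊔ Z2 ⊔ B0 = Z2 ⊔ (B0 ⊔ A2) := by order
  have e3 : A1 ⊔ (B0 ⊔ A2) = B0 ⊔ A1 := by order
  unfold Helper31.EC.h at q1 q2 u2 ⊢
  rw [e1, e2]
  rw [e3] at u2
  have q1' : H (Z1 ⊔ (B0 ⊔ A1)) - H (B0 ⊔ A1) = (Fintype.card ν - J.card) * (y1 - a1) := q1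
  have q2' : H (Z2 ⊔ (B0 ⊔ A2)) - H (B0 ⊔ A2) = (Fintype.card ν - J.card) * (y2 - a2) := q2
  nlinarith

end

end Pool.Agent.Helper18.VS
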